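import Mathlib
import Pool.Agent.Q98.SG.M
import Pool.Agent.Q98.SG.T2
import Pool.Agent.Q98.SG.C

/-!
# Resultants of a polynomial over the integers of a Galois number field and its conjugates
-/

set_option autoImplicit false

open NumberField Polynomial Finset

namespace Pool.Agent.Q98.SR

open Pool.Agent.Q98.SG

/-- the resultant with a polynomial with coefficients in an ideal -/
lemma resultant_mem {R : Type*} [CommRing R] (J : Ideal R) (f h : R[X]) (hh : ∀ i, h.coeff i ∈ J)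
    (m n : ℕ) : resultant f h m n ∈ J ^ m := by
  unfold resultant
  rw [Matrix.det_apply']
  refine Ideal.sum_mem _ fun σ _ => Ideal.mul_mem_left _ _ ?_
  rw [Fin.prod_univ_add]
  apply Ideal.mul_mem_right
  have h1 : ∏ i : Fin m, sylvester f h m n (σ (Fin.castAdd n i)) (Fin.castAdd n i) ∈
      ∏ _i : Fin m, J := by
    apply Ideal.prod_mem_prod
    intro i _
    unfold sylvester
    rw [Matrix.of_apply, Fin.addCases_left]
    split_ifs
    · exact hh _
    · exact J.zero_mem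
  simpa using h1

/-- the product `∏ (X - x_i)` -/
noncomputable def pol {D : ℕ} (x : Fin D → ℂ) : ℂ[X] := ∏ i, (X - C (x i))

lemma pol_monic {D : ℕ} (x : Fin D → ℂ) : (pol x).Monic :=
  monic_prod_of_monic _ _ fun i _ => monic_X_sub_C _

lemma pol_natDegree {D : ℕ} (x : Fin D → ℂ) : (pol x).natDegree = D := by
  unfold pol
  rw [natDegree_prod_of_monic _ _ fun i _ => monic_X_sub_C _]
  simp

lemma pol_eval {D : ℕ} (x : Fin D → ℂ) (u : ℂ) : (pol x).eval u = ∏ i, (u - x i) := by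
  unfold pol
  rw [eval_prod]
  simp

lemma pol_roots {D : ℕ} (x : Fin D → ℂ) : (pol x).roots = univ.val.map x := by
  unfold pol
  have h1 : ∏ i, (X - C (x i)) = ((univ.val.map x).map fun a => X - C a).prod := by
    rw [Multiset.map_map]
    rfl
  rw [h1, roots_multiset_prod_X_sub_C]

lemma res_pol {D : ℕ} (x : Fin D → ℂ) (h : ℂ[X]) (n : ℕ) (hn : h.natDegree ≤ n) :
    resultant (pol x) h D n = ∏ i, h.eval (x i) := by
  have h1 := resultant_eq_prod_eval (pol x) h n hn (IsAlgClosed.splits _)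
  rw [pol_natDegree, (pol_monic x).leadingCoeff, one_pow, one_mul, pol_roots,
    Multiset.map_map] at h1
  rw [h1]
  rfl

lemma pol_mahler {D : ℕ} (x : Fin D → ℂ) : (pol x).mahlerMeasure = ∏ i, max 1 ‖x i‖ := by
  rw [mahlerMeasure_eq_leadingCoeff_mul_prod_roots, (pol_monic x).leadingCoeff, norm_one, one_mul,
    pol_roots, Multiset.map_map]
  rfl

lemma exists_pol {f : ℂ[X]} (hf : f.Monic) {D : ℕ} (hD : f.natDegree = D) :
    ∃ x : Fin D → ℂ, f = pol x := by
  have h1 := (IsAlgClosed.splits f).eq_prod_roots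
  rw [hf.leadingCoeff, C_1, one_mul] at h1
  have h2 : Multiset.card f.roots = D := by
    rw [← hD]
    exact (IsAlgClosed.splits f).natDegree_eq_card_roots.symm
  obtain ⟨l, hl⟩ : ∃ l : List ℂ, (l : Multiset ℂ) = f.roots := ⟨_, Multiset.coe_toList _⟩
  have h3 : l.length = D := by rw [← h2, ← hl, Multiset.coe_card]
  clear h2 hD
  subst h3
  refine ⟨l.get, ?_⟩
  rw [← hl, Multiset.map_coe, Multiset.prod_coe] at h1
  rw [h1]
  unfold pol
  rw [← Fin.prod_ofFn]
  congr 1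
  apply List.ext_get
  · simp
  · intro n h4 h5
    simp

section

variable {L : Type} [Field L] [NumberField L]

/-- the embedding `x ↦ ι (g x)` of the ring of integers -/
noncomputable def psi (ι : L →ₐ[ℚ] ℂ) (g : L ≃ₐ[ℚ] L) : 𝓞 L →+* ℂ :=
  (ι.toRingHom.comp (g : L →+* L)).comp (algebraMap (𝓞 L) L)

/-- the action of an automorphism on the ring of integers -/
noncomputable def act (z : L ≃ₐ[ℚ] L) : 𝓞 L →+* 𝓞 L :=
  MulSemiringAction.toRingHom (L ≃ₐ[ℚ] L) (𝓞 L) z

lemma act_apply (z : L ≃ₐ[ℚ] L) (x : 𝓞 L) : act z x = z • x := rfl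

lemma psi_apply (ι : L →ₐ[ℚ] ℂ) (g : L ≃ₐ[ℚ] L) (x : 𝓞 L) : psi ι g x = ι (g (x : L)) := rfl

lemma psi_act (ι : L →ₐ[ℚ] ℂ) (g z : L ≃ₐ[ℚ] L) : (psi ι g).comp (act z) = psi ι (g * z) := by
  ext x
  rfl

lemma nm_psi [IsGalois ℚ L] (ι : L →ₐ[ℚ] ℂ) (x : 𝓞 L) :
    (nm x : ℝ) = ∏ g : L ≃ₐ[ℚ] L, ‖psi ι g x‖ := nm_eq ι x

lemma map_act (ι : L →ₐ[ℚ] ℂ) (g z : L ≃ₐ[ℚ] L) (F : (𝓞 L)[X]) :
    (F.map (act z)).map (psi ι g) = F.map (psi ι (g * z)) := by
  rw [Polynomial.map_map, psi_act]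

end

end Pool.Agent.Q98.SR
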