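import Mathlib
import Pool.Agent.Q98.SR.A

/-!
# Bad primes and the resultants over the centre
-/

set_option autoImplicit false

open NumberField Polynomial
open scoped Pointwise

namespace Pool.Agent.Q98.SR

open Pool.Agent.Q98.SG

variable {L : Type} [Field L] [NumberField L] [IsGalois ℚ L]

/-- either the ramification index is at most `d`, or the central part of inertia is large -/
theorem bad_gen {p d : ℕ} (hp : p.Prime) (hd : 0 < d) (hdp : d < p)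
    (hcen : ∀ σ τ : L ≃ₐ[ℚ] L, σ ^ d * τ = τ * σ ^ d) :
    ((Ideal.span {(p : 𝓞 L)}).radical ^ d ≤ Ideal.span {(p : 𝓞 L)}) ∨
      ∃ (SS : Subgroup (L ≃ₐ[ℚ] L)) (e : ℕ), 0 < e ∧ 2 ≤ Nat.card SS ∧ e ≤ d * Nat.card SS ∧
        SS ≤ Subgroup.center (L ≃ₐ[ℚ] L) ∧
        (∀ z ∈ SS, ∀ x : 𝓞 L, x - z • x ∈ (Ideal.span {(p : 𝓞 L)}).radical) ∧
        (Ideal.span {(p : 𝓞 L)}).radical ^ e ≤ Ideal.span {(p : 𝓞 L)} := by
  classical
  have hm := maxZ hp
  obtain ⟨Q₀⟩ : Nonempty (Ideal.primesOver (Ideal.span {(p : ℤ)}) (𝓞 L)) := inferInstance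
  set P : Ideal (𝓞 L) := Q₀.1 with hPdef
  have hP : P.IsPrime := Q₀.2.1
  have hpP : (p : 𝓞 L) ∈ P := by
    have h2 := Q₀.2.2.over
    have h3 : (p : ℤ) ∈ Q₀.1.under ℤ := by
      rw [← h2]; exact Ideal.subset_span rfl
    simpa [Ideal.under_def, Ideal.mem_comap] using h3
  obtain ⟨hP0, hfin⟩ := finQuot hp P hpP
  set e := Nat.card (P.inertia (L ≃ₐ[ℚ] L)) with he
  have hram : ∀ m : ℕ, e ≤ m →
      (Ideal.span {(p : 𝓞 L)}).radical ^ m ≤ Ideal.span {(p : 𝓞 L)} := fun m hm =>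
    ramLe_of (L := L) hp (m := m) (fun Q hQ hpQ => by
      rw [ram_eq hp P Q hP hpP hQ hpQ]
      exact hm)
  by_cases hbad : e ≤ d
  · left
    exact hram d hbad
  right
  push Not at hbad
  set I := P.inertia (L ≃ₐ[ℚ] L) with hI
  set SS : Subgroup (L ≃ₐ[ℚ] L) := I ⊓ Subgroup.center (L ≃ₐ[ℚ] L) with hSS
  have hfs : FaithfulSMul (L ≃ₐ[ℚ] L) (𝓞 L) :=
    (inferInstance : IsGaloisGroup (L ≃ₐ[ℚ] L) ℤ (𝓞 L)).faithful
  have h1 : e ≤ d * Nat.card SS := inertia_card_le' (G := L ≃ₐ[ℚ] L) hP0 hp hpP hd hdp hcen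
  refine ⟨SS, e, by omega, ?_, h1, inf_le_right, ?_, hram e le_rfl⟩
  · by_contra hcon
    have : Nat.card SS ≤ 1 := by omega
    have : d * Nat.card SS ≤ d * 1 := Nat.mul_le_mul_left _ this
    omega
  · intro z hz T
    rw [hSS, Subgroup.mem_inf] at hz
    rw [Ideal.radical_eq_sInf, Ideal.mem_sInf]
    rintro J ⟨hJ1, hJ2⟩
    have hJp : (p : 𝓞 L) ∈ J := hJ1 (Ideal.subset_span rfl)
    obtain ⟨g, hg⟩ := exists_smul hp P J hP hpP hJ2 hJp
    have h1 : z • (g⁻¹ • T) - g⁻¹ • T ∈ P := inert_smul hz.1 _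
    have h2 : g • (z • (g⁻¹ • T) - g⁻¹ • T) ∈ g • P := Ideal.smul_mem_pointwise_smul g _ P h1
    have h3 : g * z * g⁻¹ = z := by
      rw [Subgroup.mem_center_iff.1 hz.2 g, mul_inv_cancel_right]
    rw [hg, smul_sub, smul_inv_smul, ← mul_smul, ← mul_smul, h3] at h2
    rw [← neg_sub]
    exact J.neg_mem h2

/-- the product over the centre is divisible by a high power of a bad prime -/
lemma bad_arith {p d K e : ℕ} (hp : p.Prime) (SS : Subgroup (L ≃ₐ[ℚ] L)) (he : 0 < e)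
    (hs2 : 2 ≤ Nat.card SS) (h1 : e ≤ d * Nat.card SS)
    (hSc : SS ≤ Subgroup.center (L ≃ₐ[ℚ] L)) (A : (L ≃ₐ[ℚ] L) → ℕ)
    (hA : ∀ z ∈ cen L, A z ≠ 0) (hdvd : ∀ z ∈ SS, p ^ K ∣ A z ^ e) :
    p ^ K ∣ (∏ z ∈ cen L, A z) ^ (2 * d) := by
  classical
  set s := Nat.card SS with hs
  set S1 : Finset (L ≃ₐ[ℚ] L) := Finset.univ.filter (fun z => z ∈ SS ∧ z ≠ 1) with hS1
  have hS1card : S1.card = s - 1 := by
    have h2 : S1 = (Finset.univ.filter (fun z => z ∈ SS)).erase 1 := by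
      ext z
      rw [hS1, Finset.mem_filter, Finset.mem_erase, Finset.mem_filter]
      tauto
    rw [h2, Finset.card_erase_of_mem (by
      rw [Finset.mem_filter]
      exact ⟨Finset.mem_univ _, SS.one_mem⟩)]
    congr 1
    rw [hs, Nat.card_eq_fintype_card]
    exact (Fintype.card_subtype _).symm
  have hS1sub : S1 ⊆ cen L := by
    intro z hz
    rw [hS1, Finset.mem_filter] at hz
    unfold cen
    rw [Finset.mem_filter]
    exact ⟨Finset.mem_univ _, hSc hz.2.1, hz.2.2⟩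
  set DDv := ∏ z ∈ cen L, A z with hDD
  have hdvd2 : p ^ (K * (s - 1)) ∣ DDv ^ e := by
    have h2 : ∏ z ∈ S1, p ^ K ∣ ∏ z ∈ S1, A z ^ e := by
      apply Finset.prod_dvd_prod_of_dvd
      intro z hz
      rw [hS1, Finset.mem_filter] at hz
      exact hdvd z hz.2.1
    rw [Finset.prod_const, hS1card, ← pow_mul] at h2
    refine h2.trans ?_
    rw [Finset.prod_pow]
    exact pow_dvd_pow_of_dvd (Finset.prod_dvd_prod_of_subset _ _ _ hS1sub) e
  have hD0 : DDv ≠ 0 := Finset.prod_ne_zero_iff.2 hA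
  have h3 : K * (s - 1) ≤ e * DDv.factorization p := by
    have h4 := (Nat.Prime.pow_dvd_iff_le_factorization hp (pow_ne_zero e hD0)).1 hdvd2
    rwa [Nat.factorization_pow, Finsupp.smul_apply, smul_eq_mul] at h4
  rw [Nat.Prime.pow_dvd_iff_le_factorization hp (pow_ne_zero _ hD0), Nat.factorization_pow,
    Finsupp.smul_apply, smul_eq_mul]
  set v := DDv.factorization p with hv
  have h5 : e ≤ 2 * d * (s - 1) := by
    obtain ⟨k, hk⟩ := Nat.exists_eq_add_of_le hs2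
    rw [hk] at h1 ⊢
    have h6 : 2 + k - 1 = 1 + k := by omega
    rw [h6]
    nlinarith
  have h6 : K * e ≤ (2 * d * v) * e := by
    calc K * e ≤ K * (2 * d * (s - 1)) := Nat.mul_le_mul_left _ h5
      _ = 2 * d * (K * (s - 1)) := by ring
      _ ≤ 2 * d * (e * v) := Nat.mul_le_mul_left _ h3
      _ = (2 * d * v) * e := by ring
  exact Nat.le_of_mul_le_mul_right h6 he

/-- if `J ^ e ≤ (p)` then the norms of the elements of `J ^ D` have `e`-th powers divisible by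
`p ^ (N D)` -/
lemma nm_dvd {p e D : ℕ} {J : Ideal (𝓞 L)} (hJ : J ^ e ≤ Ideal.span {(p : 𝓞 L)}) {x : 𝓞 L}
    (hx : x ∈ J ^ D) : p ^ (Module.finrank ℚ L * D) ∣ nm x ^ e := by
  have h1 : x ^ e ∈ (J ^ e) ^ D := by
    rw [← pow_mul, mul_comm e D, pow_mul]
    exact Ideal.pow_mem_pow hx e
  have h2 : x ^ e ∈ Ideal.span {((p : 𝓞 L)) ^ D} := by
    rw [← Ideal.span_singleton_pow]
    exact Ideal.pow_right_mono hJ D h1
  obtain ⟨y, hy⟩ := Ideal.mem_span_singleton.1 h2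
  rw [← nm_pow, hy, nm_mul, nm_pow, nm_natCast, pow_mul]
  exact Dvd.intro _ rfl

/-- the resultant of `F` and its conjugate -/
noncomputable def Rz (F : (𝓞 L)[X]) (z : L ≃ₐ[ℚ] L) : 𝓞 L :=
  resultant F (F.map (act z)) F.natDegree F.natDegree

/-- the product of the norms of these resultants over the centre -/
noncomputable def DR (F : (𝓞 L)[X]) : ℕ := ∏ z ∈ cen L, nm (Rz F z)

lemma Rz_mem {F : (𝓞 L)[X]} (hF : F.Monic) (z : L ≃ₐ[ℚ] L) {J : Ideal (𝓞 L)}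
    (hJ : ∀ x : 𝓞 L, x - z • x ∈ J) : Rz F z ∈ J ^ F.natDegree := by
  unfold Rz
  have h1 : F.map (act z) = (F.map (act z) - F) + F * 1 := by ring
  rw [h1, resultant_add_mul_right _ _ _ _ _ (by simp) le_rfl]
  apply resultant_mem
  intro i
  rw [coeff_sub, coeff_map, act_apply, ← neg_sub]
  exact J.neg_mem (hJ _)

theorem bad_dvd' {p d : ℕ} (hp : p.Prime) (hd : 0 < d) (hdp : d < p)
    (hcen : ∀ σ τ : L ≃ₐ[ℚ] L, σ ^ d * τ = τ * σ ^ d) {F : (𝓞 L)[X]} (hF : F.Monic)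
    (hR : ∀ z ∈ cen L, Rz F z ≠ 0) :
    ((Ideal.span {(p : 𝓞 L)}).radical ^ d ≤ Ideal.span {(p : 𝓞 L)}) ∨
      p ^ (Module.finrank ℚ L * F.natDegree) ∣ DR F ^ (2 * d) := by
  rcases bad_gen hp hd hdp hcen with h | ⟨SS, e, he, hs2, h1, hSc, hx, hrad⟩
  · exact Or.inl h
  · right
    unfold DR
    refine bad_arith hp SS he hs2 h1 hSc (fun z => nm (Rz F z)) ?_ ?_
    · intro z hz
      exact nm_ne_zero (hR z hz)
    · intro z hz
      exact nm_dvd hrad (Rz_mem hF z (hx z hz))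

end Pool.Agent.Q98.SR
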