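import Mathlib
import Pool.Agent.Q98.SR.B

/-!
# The bound from a prime with small ramification, for polynomials
-/

set_option autoImplicit false

open NumberField Polynomial Finset

namespace Pool.Agent.Q98.SR

open Pool.Agent.Q98.SG

variable {L : Type} [Field L] [NumberField L]

/-- Frobenius congruence for a power of a polynomial -/
lemma expand_mem {p d : ℕ} (hp : p.Prime) (J : Ideal (𝓞 L)) (hpJ : (p : 𝓞 L) ∈ J)
    (σ : L ≃ₐ[ℚ] L) (hσ : ∀ T : 𝓞 L, T ^ (p ^ d) - σ • T ∈ J) (F : (𝓞 L)[X]) (i : ℕ) :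
    (expand (𝓞 L) (p ^ d) (F.map (act σ)) - F ^ (p ^ d)).coeff i ∈ J := by
  have hf : Fact p.Prime := ⟨hp⟩
  rcases subsingleton_or_nontrivial (𝓞 L ⧸ J) with h3 | h3
  · rw [← Ideal.Quotient.eq_zero_iff_mem]
    exact Subsingleton.elim _ _
  have hchar : CharP (𝓞 L ⧸ J) p := by
    rw [CharP.charP_iff_prime_eq_zero hp, ← map_natCast (Ideal.Quotient.mk J),
      Ideal.Quotient.eq_zero_iff_mem]
    exact hpJ
  set π := Ideal.Quotient.mk J with hπ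
  have h1 : (expand (𝓞 L) (p ^ d) (F.map (act σ))).map π = (F ^ (p ^ d)).map π := by
    rw [Polynomial.map_pow, ← map_iterateFrobenius_expand p (F.map π) d, map_expand, map_expand,
      Polynomial.map_map, Polynomial.map_map]
    congr 1
    ext j
    rw [coeff_map, coeff_map, RingHom.comp_apply, RingHom.comp_apply, act_apply,
      iterateFrobenius_def, ← map_pow]
    have h4 := hσ (F.coeff j)
    rw [← Ideal.Quotient.eq_zero_iff_mem, map_sub, sub_eq_zero] at h4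
    exact h4.symm
  rw [← Ideal.Quotient.eq_zero_iff_mem, coeff_sub, map_sub, ← coeff_map, ← coeff_map, h1, sub_self]

/-- the product of the Mahler measures of the conjugate polynomials -/
noncomputable def MLr {D : ℕ} (r : (L ≃ₐ[ℚ] L) → Fin D → ℂ) : ℝ :=
  ∏ g : L ≃ₐ[ℚ] L, ∏ i, max 1 ‖r g i‖

lemma norm_pow_sub (u v : ℂ) (a : ℕ) : ‖u ^ a - v‖ ≤ 2 * max 1 ‖u‖ ^ a * max 1 ‖v‖ := by
  have h1 : ‖u ^ a - v‖ ≤ ‖u‖ ^ a + ‖v‖ := by
    refine (norm_sub_le _ _).trans ?_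
    rw [norm_pow]
  have h2 : ‖u‖ ^ a ≤ max 1 ‖u‖ ^ a := pow_le_pow_left₀ (norm_nonneg _) (le_max_right _ _) a
  have h3 : ‖v‖ ≤ max 1 ‖v‖ := le_max_right _ _
  have h4 : (1 : ℝ) ≤ max 1 ‖u‖ ^ a := one_le_pow₀ (le_max_left _ _)
  have h5 : (1 : ℝ) ≤ max 1 ‖v‖ := le_max_left _ _
  nlinarith

variable [IsGalois ℚ L]

theorem good_bound' {p d D : ℕ} (hp : p.Prime)
    (hrad : (Ideal.span {(p : 𝓞 L)}).radical ^ d ≤ Ideal.span {(p : 𝓞 L)})
    (hcen : ∀ σ τ : L ≃ₐ[ℚ] L, σ ^ d * τ = τ * σ ^ d)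
    (ι : L →ₐ[ℚ] ℂ) {F : (𝓞 L)[X]} (hD : F.natDegree = D)
    (r : (L ≃ₐ[ℚ] L) → Fin D → ℂ) (hr : ∀ g, F.map (psi ι g) = pol (r g))
    (hnz : ∀ (σ : L ≃ₐ[ℚ] L) (i j : Fin D), (r 1 i) ^ (p ^ d) ≠ r σ j) :
    (p : ℝ) ^ (Module.finrank ℚ L * D) ≤
      (2 ^ (D ^ 2 * Module.finrank ℚ L) * MLr r ^ ((p ^ d + 1) * D)) ^ d := by
  classical
  set N := Module.finrank ℚ L with hN
  have hGN : Fintype.card (L ≃ₐ[ℚ] L) = N := by
    rw [hN, ← IsGalois.card_aut_eq_finrank ℚ L, Nat.card_eq_fintype_card]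
  obtain ⟨σ, hσ⟩ := frob_central (L := L) hp hcen
  set a := p ^ d with ha
  have ha1 : 1 ≤ a := Nat.one_le_pow _ _ hp.pos
  set J := (Ideal.span {(p : 𝓞 L)}).radical with hJ
  have hpJ : (p : 𝓞 L) ∈ J := Ideal.le_radical (Ideal.subset_span rfl)
  set E := expand (𝓞 L) a (F.map (act σ)) with hE
  set X : 𝓞 L := resultant F E D (a * D) with hX
  have hXJ : X ∈ J ^ D := by
    have h1 : E = (E - F ^ a) + F * F ^ (a - 1) := by
      rw [← pow_succ', Nat.sub_add_cancel ha1]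
      ring
    rw [hX, h1, resultant_add_mul_right _ _ _ _ _ ?_ hD.le]
    · exact resultant_mem J F _ (expand_mem hp J hpJ σ hσ F) D (a * D)
    · have h2 : (F ^ (a - 1)).natDegree ≤ (a - 1) * D := by
        rw [← hD]
        exact natDegree_pow_le
      have h3 : (a - 1) * D + D = a * D := by
        rw [← Nat.succ_mul, Nat.succ_eq_add_one, Nat.sub_add_cancel ha1]
      omega
  have hdvd : p ^ (N * D) ∣ nm X ^ d := nm_dvd hrad hXJ
  have hval : ∀ g : L ≃ₐ[ℚ] L, psi ι g X = ∏ i, ∏ j, ((r g i) ^ a - r (g * σ) j) := by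
    intro g
    rw [hX, ← resultant_map_map, hr, hE, map_expand, map_act, hr, res_pol]
    · refine prod_congr rfl fun i _ => ?_
      rw [expand_eval, pol_eval]
    · rw [natDegree_expand, pol_natDegree, mul_comm]
  have hX0 : X ≠ 0 := by
    intro h
    have h1 := hval 1
    rw [h, map_zero] at h1
    have h2 : ∏ i, ∏ j, ((r 1 i) ^ a - r (1 * σ) j) ≠ 0 := by
      rw [prod_ne_zero_iff]
      intro i _
      rw [prod_ne_zero_iff]
      intro j _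
      exact sub_ne_zero.2 (hnz _ i j)
    exact h2 h1.symm
  have hle : (p : ℝ) ^ (N * D) ≤ (nm X : ℝ) ^ d := by
    exact_mod_cast Nat.le_of_dvd (pow_pos (Nat.pos_of_ne_zero (nm_ne_zero hX0)) d) hdvd
  refine hle.trans (pow_le_pow_left₀ (Nat.cast_nonneg _) ?_ d)
  rw [nm_psi ι]
  have hb : ∀ g : L ≃ₐ[ℚ] L, ‖psi ι g X‖ ≤ 2 ^ (D ^ 2) *
      ((∏ i, max 1 ‖r g i‖) ^ (a * D) * (∏ i, max 1 ‖r (g * σ) i‖) ^ D) := by
    intro g
    rw [hval, norm_prod]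
    calc ∏ i, ‖∏ j, ((r g i) ^ a - r (g * σ) j)‖ ≤
        ∏ i, ∏ j, (2 * max 1 ‖r g i‖ ^ a * max 1 ‖r (g * σ) j‖) := by
          refine prod_le_prod (fun _ _ => norm_nonneg _) fun i _ => ?_
          rw [norm_prod]
          exact prod_le_prod (fun _ _ => norm_nonneg _) fun j _ => norm_pow_sub _ _ _
      _ = 2 ^ (D ^ 2) *
      ((∏ i, max 1 ‖r g i‖) ^ (a * D) * (∏ i, max 1 ‖r (g * σ) i‖) ^ D) := by
          have h1 : ∀ i : Fin D, ∏ j, (2 * max 1 ‖r g i‖ ^ a * max 1 ‖r (g * σ) j‖) =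
              2 ^ D * (max 1 ‖r g i‖ ^ (a * D)) * ∏ j, max 1 ‖r (g * σ) j‖ := by
            intro i
            rw [prod_mul_distrib, prod_const, card_univ, Fintype.card_fin, mul_pow, ← pow_mul]
          rw [prod_congr rfl (fun i _ => h1 i), prod_mul_distrib, prod_mul_distrib, prod_const,
            prod_const, card_univ, Fintype.card_fin, prod_pow]
          ring
  calc ∏ g : L ≃ₐ[ℚ] L, ‖psi ι g X‖ ≤ ∏ g : L ≃ₐ[ℚ] L, 2 ^ (D ^ 2) *
      ((∏ i, max 1 ‖r g i‖) ^ (a * D) * (∏ i, max 1 ‖r (g * σ) i‖) ^ D) :=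
        prod_le_prod (fun _ _ => norm_nonneg _) (fun g _ => hb g)
    _ = 2 ^ (D ^ 2 * N) * MLr r ^ ((a + 1) * D) := by
      rw [prod_mul_distrib, prod_const, card_univ, hGN, ← pow_mul, prod_mul_distrib, prod_pow,
        prod_pow]
      have h1 : ∏ g : L ≃ₐ[ℚ] L, ∏ i, max 1 ‖r (g * σ) i‖ = MLr r :=
        Equiv.prod_comp (Equiv.mulRight σ) (fun g : L ≃ₐ[ℚ] L => ∏ i, max 1 ‖r g i‖)
      have h2 : ∏ g : L ≃ₐ[ℚ] L, ∏ i, max 1 ‖r g i‖ = MLr r := rfl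
      rw [h1, h2, add_mul, one_mul, pow_add]

end Pool.Agent.Q98.SR
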