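import Mathlib
import Pool.Agent.Q98.SR.C
import Pool.Agent.Q98.SG.V

/-!
# The product of the resultants over the centre
-/

set_option autoImplicit false

open NumberField Polynomial Finset

namespace Pool.Agent.Q98.SR

open Pool.Agent.Q98.SG

lemma det_bound2 {s : ℕ} (x : Fin s → ℂ) :
    ‖(Matrix.vandermonde x).det‖ ≤ (s : ℝ) ^ s * (∏ i, max 1 ‖x i‖) ^ (s - 1) := by
  rw [Matrix.det_apply']
  have h1 : ∀ σ : Equiv.Perm (Fin s), ‖((Equiv.Perm.sign σ : ℤ) : ℂ) *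
      ∏ i, Matrix.vandermonde x (σ i) i‖ ≤ (∏ i, max 1 ‖x i‖) ^ (s - 1) := by
    intro σ
    rw [norm_mul]
    have h2 : ‖((Equiv.Perm.sign σ : ℤ) : ℂ)‖ = 1 := by
      rcases Int.units_eq_one_or (Equiv.Perm.sign σ) with h | h <;> rw [h] <;> simp
    rw [h2, one_mul, norm_prod]
    calc ∏ i, ‖Matrix.vandermonde x (σ i) i‖ ≤ ∏ i, (max 1 ‖x (σ i)‖) ^ (s - 1) := by
          refine prod_le_prod (fun _ _ => norm_nonneg _) fun i _ => ?_
          rw [Matrix.vandermonde_apply, norm_pow]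
          refine (pow_le_pow_left₀ (norm_nonneg _) (le_max_right 1 _) _).trans ?_
          apply pow_le_pow_right₀ (le_max_left _ _)
          have := i.2
          omega
      _ = (∏ i, max 1 ‖x i‖) ^ (s - 1) := by
          rw [prod_pow]
          congr 1
          exact Equiv.prod_comp σ (fun i => max 1 ‖x i‖)
  refine (norm_sum_le _ _).trans ((sum_le_sum fun σ _ => h1 σ).trans ?_)
  rw [sum_const, card_univ, Fintype.card_perm, Fintype.card_fin, nsmul_eq_mul]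
  have h3 : ((s.factorial : ℕ) : ℝ) ≤ (s : ℝ) ^ s := by exact_mod_cast Nat.factorial_le_pow s
  have h4 : 0 ≤ (∏ i, max 1 ‖x i‖) ^ (s - 1) :=
    pow_nonneg (prod_nonneg fun i _ => le_trans zero_le_one (le_max_left _ _)) _
  exact mul_le_mul_of_nonneg_right h3 h4

/-- the bound for an arbitrary finite index set -/
theorem vander2 {ι : Type*} [Fintype ι] [DecidableEq ι] (x : ι → ℂ) :
    ∏ i, ∏ j ∈ univ.erase i, ‖x i - x j‖ ≤
      ((Fintype.card ι : ℝ) ^ Fintype.card ι * (∏ i, max 1 ‖x i‖) ^ (Fintype.card ι - 1)) ^ 2 := by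
  set s := Fintype.card ι with hs
  let e : Fin s ≃ ι := (Fintype.equivFin ι).symm
  have h1 : ∏ i, ∏ j ∈ univ.erase i, ‖x i - x j‖ =
      ∏ i : Fin s, ∏ j ∈ univ.erase i, ‖x (e i) - x (e j)‖ := by
    rw [← Equiv.prod_comp e]
    refine prod_congr rfl fun i _ => ?_
    refine (prod_bij (fun j _ => e j) ?_ ?_ ?_ ?_).symm
    · intro j hj
      rw [mem_erase] at hj ⊢
      exact ⟨fun h => hj.1 (e.injective h), mem_univ _⟩
    · intro a _ b _ h
      exact e.injective h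
    · intro b hb
      rw [mem_erase] at hb
      refine ⟨e.symm b, ?_, e.apply_symm_apply b⟩
      rw [mem_erase]
      refine ⟨?_, mem_univ _⟩
      rintro rfl
      exact hb.1 (e.apply_symm_apply b).symm
    · intro j _
      rfl
  have h2 : ∏ i, max 1 ‖x i‖ = ∏ i : Fin s, max 1 ‖x (e i)‖ := (Equiv.prod_comp e _).symm
  rw [h1, h2]
  have h3 := ordered_prod (fun i : Fin s => x (e i))
  rw [h3]
  exact pow_le_pow_left₀ (norm_nonneg _) (det_bound2 (fun i => x (e i))) 2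

lemma pol_deriv {D : ℕ} (x : Fin D → ℂ) (i : Fin D) :
    (derivative (pol x)).eval (x i) = ∏ j ∈ univ.erase i, (x i - x j) := by
  have h1 : pol x = (X - C (x i)) * ∏ j ∈ univ.erase i, (X - C (x j)) := by
    unfold pol
    exact (mul_prod_erase univ (fun j => X - C (x j)) (mem_univ i)).symm
  rw [h1, derivative_mul, derivative_sub, derivative_X, derivative_C, sub_zero, one_mul, eval_add,
    eval_mul, eval_sub, eval_X, eval_C, sub_self, zero_mul, add_zero, eval_prod]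
  simp

section

variable {L : Type} [Field L] [NumberField L] [IsGalois ℚ L]

/-- `R(h, h')` -/
noncomputable def RR {D : ℕ} (r : (L ≃ₐ[ℚ] L) → Fin D → ℂ) (h h' : L ≃ₐ[ℚ] L) : ℝ :=
  ∏ i, ∏ j, ‖r h i - r h' j‖

/-- `d(h)` -/
noncomputable def dd {D : ℕ} (r : (L ≃ₐ[ℚ] L) → Fin D → ℂ) (h : L ≃ₐ[ℚ] L) : ℝ :=
  ∏ i, ∏ j ∈ univ.erase i, ‖r h i - r h j‖

lemma nm_Rz (ι : L →ₐ[ℚ] ℂ) {F : (𝓞 L)[X]} {D : ℕ} (hD : F.natDegree = D)
    (r : (L ≃ₐ[ℚ] L) → Fin D → ℂ) (hr : ∀ g, F.map (psi ι g) = pol (r g)) (z : L ≃ₐ[ℚ] L) :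
    (nm (Rz F z) : ℝ) = ∏ g : L ≃ₐ[ℚ] L, RR r g (g * z) := by
  rw [nm_psi ι]
  refine prod_congr rfl fun g _ => ?_
  unfold Rz RR
  rw [← resultant_map_map, map_act, hr, hr, hD, res_pol _ _ _ (pol_natDegree _).le, norm_prod]
  refine prod_congr rfl fun i _ => ?_
  rw [pol_eval, norm_prod]

lemma dd_ge (ι : L →ₐ[ℚ] ℂ) {F : (𝓞 L)[X]} {D : ℕ}
    (r : (L ≃ₐ[ℚ] L) → Fin D → ℂ) (hr : ∀ g, F.map (psi ι g) = pol (r g))
    (hinj : Function.Injective (r 1)) : 1 ≤ ∏ g : L ≃ₐ[ℚ] L, dd r g := by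
  set X : 𝓞 L := resultant F (derivative F) D (D - 1) with hX
  have hval : ∀ g : L ≃ₐ[ℚ] L, psi ι g X = ∏ i, ∏ j ∈ univ.erase i, (r g i - r g j) := by
    intro g
    rw [hX, ← resultant_map_map, ← derivative_map, hr, res_pol]
    · refine prod_congr rfl fun i _ => pol_deriv _ _
    · refine (natDegree_derivative_le _).trans ?_
      rw [pol_natDegree]
  have hX0 : X ≠ 0 := by
    intro h
    have h1 := hval 1
    rw [h, map_zero] at h1
    have h2 : ∏ i, ∏ j ∈ univ.erase i, (r 1 i - r 1 j) ≠ 0 := by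
      rw [prod_ne_zero_iff]
      intro i _
      rw [prod_ne_zero_iff]
      intro j hj
      rw [mem_erase] at hj
      exact sub_ne_zero.2 fun h => hj.1 (hinj h).symm
    exact h2 h1.symm
  have h1 : (1 : ℝ) ≤ nm X := by
    exact_mod_cast Nat.pos_of_ne_zero (nm_ne_zero hX0)
  rw [nm_psi ι] at h1
  refine h1.trans (le_of_eq ?_)
  refine prod_congr rfl fun g _ => ?_
  rw [hval, norm_prod]
  unfold dd
  refine prod_congr rfl fun i _ => ?_
  rw [norm_prod]

open Classical in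
theorem DR_le (ι : L →ₐ[ℚ] ℂ) {F : (𝓞 L)[X]} {D : ℕ} (hD : F.natDegree = D) (hD1 : 1 ≤ D)
    (r : (L ≃ₐ[ℚ] L) → Fin D → ℂ) (hr : ∀ g, F.map (psi ι g) = pol (r g))
    (hinj : Function.Injective (r 1)) :
    (DR F : ℝ) ≤ (((sc L * D : ℕ) : ℝ) ^ (2 * D)) ^ Module.finrank ℚ L *
      MLr r ^ (2 * (sc L * D - 1)) := by
  set N := Module.finrank ℚ L with hN
  have hGN : Fintype.card (L ≃ₐ[ℚ] L) = N := by
    rw [hN, ← IsGalois.card_aut_eq_finrank ℚ L, Nat.card_eq_fintype_card]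
  set C := Subgroup.center (L ≃ₐ[ℚ] L) with hC
  have hs : Fintype.card C = sc L := by
    unfold sc
    rw [Nat.card_eq_fintype_card]
  set s := sc L with hsdef
  set S : ℕ := s * D with hS
  have hs0 : s ≠ 0 := by
    rw [← hs]
    exact Fintype.card_ne_zero
  have hcardS : Fintype.card (C × Fin D) = S := by
    rw [Fintype.card_prod, hs, Fintype.card_fin]
  set mg : (L ≃ₐ[ℚ] L) → ℝ := fun g => ∏ i, max 1 ‖r g i‖ with hmg
  have hmg0 : ∀ g, 0 ≤ mg g := fun g => prod_nonneg fun i _ => zero_le_one.trans (le_max_left _ _)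
  have hML : MLr r = ∏ g, mg g := rfl
  have hML0 : 0 ≤ MLr r := by rw [hML]; exact prod_nonneg fun g _ => hmg0 g
  have hRR0 : ∀ h h', 0 ≤ RR r h h' := fun h h' =>
    prod_nonneg fun _ _ => prod_nonneg fun _ _ => norm_nonneg _
  have hdd0 : ∀ h, 0 ≤ dd r h := fun h =>
    prod_nonneg fun _ _ => prod_nonneg fun _ _ => norm_nonneg _
  -- the local bound
  have hloc : ∀ g : L ≃ₐ[ℚ] L, (∏ z : C, dd r (g * z)) *
      (∏ z : C, ∏ z' ∈ univ.erase z, RR r (g * z) (g * z')) ≤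
      ((S : ℝ) ^ S * (∏ z : C, mg (g * z)) ^ (S - 1)) ^ 2 := by
    intro g
    have h1 := vander2 (fun zi : C × Fin D => r (g * zi.1) zi.2)
    rw [hcardS] at h1
    have h2 : ∏ zi : C × Fin D, max 1 ‖r (g * zi.1) zi.2‖ = ∏ z : C, mg (g * z) := by
      rw [Fintype.prod_prod_type]
    rw [h2] at h1
    refine le_trans (le_of_eq ?_) h1
    rw [Fintype.prod_prod_type, ← prod_mul_distrib]
    refine prod_congr rfl fun z _ => ?_
    unfold dd RR
    rw [prod_comm (s := univ.erase z) (t := univ), ← prod_mul_distrib]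
    refine prod_congr rfl fun i _ => ?_
    have h3 : (univ : Finset (C × Fin D)).erase (z, i) =
        ((univ.erase i).map ⟨fun j => (z, j), fun a b h => (Prod.ext_iff.1 h).2⟩) ∪
          ((univ.erase z) ×ˢ (univ : Finset (Fin D))) := by
      ext ⟨z', j⟩
      simp only [mem_erase, mem_univ, and_true, mem_union, mem_map, Function.Embedding.coeFn_mk,
        mem_product, Prod.mk.injEq, ne_eq]
      constructor
      · intro h
        by_cases hz : z' = z
        · left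
          exact ⟨j, fun hj => h ⟨hz, hj⟩, hz.symm, rfl⟩
        · right
          exact hz
      · rintro (⟨j', hj', hz, rfl⟩ | hz) ⟨h4, h5⟩
        · exact hj' h5
        · exact hz h4
    rw [h3, prod_union]
    · congr 1
      · rw [prod_map]
        rfl
      · rw [prod_product]
    · rw [disjoint_left]
      rintro ⟨z', j⟩ h4 h5
      rw [mem_map] at h4
      obtain ⟨j', -, h6⟩ := h4
      rw [mem_product, mem_erase] at h5
      exact h5.1.1 (Prod.ext_iff.1 h6).1.symm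
  -- the product over `g`
  set Δ : ℝ := ∏ g : L ≃ₐ[ℚ] L, ∏ u ∈ univ.erase (1 : C), RR r g (g * u) with hΔ
  have hΔ0 : 0 ≤ Δ := prod_nonneg fun _ _ => prod_nonneg fun _ _ => hRR0 _ _
  have hshift : ∀ (f : (L ≃ₐ[ℚ] L) → ℝ) (z : C), ∏ g : L ≃ₐ[ℚ] L, f (g * z) =
      ∏ g : L ≃ₐ[ℚ] L, f g := fun f z =>
    Equiv.prod_comp (Equiv.mulRight (z : L ≃ₐ[ℚ] L)) f
  have hL : ∏ g : L ≃ₐ[ℚ] L, ∏ z : C, ∏ z' ∈ univ.erase z, RR r (g * z) (g * z') = Δ ^ s := by
    rw [prod_comm]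
    have h1 : ∀ z : C, ∏ g : L ≃ₐ[ℚ] L, ∏ z' ∈ univ.erase z, RR r (g * z) (g * z') = Δ := by
      intro z
      rw [hΔ, ← hshift (fun g => ∏ u ∈ univ.erase (1 : C), RR r g (g * u)) z]
      refine prod_congr rfl fun g _ => ?_
      refine prod_bij (fun z' _ => z⁻¹ * z') ?_ ?_ ?_ ?_
      · intro z' hz'
        rw [mem_erase] at hz' ⊢
        refine ⟨?_, mem_univ _⟩
        intro h
        exact hz'.1 (inv_mul_eq_one.1 h).symm
      · intro a _ b _ h
        exact mul_left_cancel h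
      · intro b hb
        rw [mem_erase] at hb
        refine ⟨z * b, ?_, by rw [inv_mul_cancel_left]⟩
        rw [mem_erase]
        refine ⟨?_, mem_univ _⟩
        intro h
        exact hb.1 (mul_eq_left.1 h)
      · intro z' _
        have h2 : g * (z : L ≃ₐ[ℚ] L) * (((z⁻¹ * z' : C) : L ≃ₐ[ℚ] L)) =
            g * (z' : L ≃ₐ[ℚ] L) := by
          push_cast
          rw [mul_assoc, mul_inv_cancel_left]
        rw [h2]
    rw [prod_congr rfl (fun z _ => h1 z), prod_const, card_univ, hs]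
  have hDd : 1 ≤ ∏ g : L ≃ₐ[ℚ] L, ∏ z : C, dd r (g * z) := by
    rw [prod_comm, prod_congr rfl (fun z _ => hshift (fun g => dd r g) z), prod_const]
    exact one_le_pow₀ (dd_ge ι r hr hinj)
  have hR : ∏ g : L ≃ₐ[ℚ] L, ((S : ℝ) ^ S * (∏ z : C, mg (g * z)) ^ (S - 1)) ^ 2 =
      (((S : ℝ) ^ (2 * D)) ^ N * MLr r ^ (2 * (S - 1))) ^ s := by
    rw [prod_pow, prod_mul_distrib, prod_const, card_univ, hGN, prod_pow, prod_comm,
      prod_congr rfl (fun z _ => hshift mg z), prod_const, card_univ, hs, ← hML]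
    have e1 : ((S : ℝ) ^ S) ^ N = (((S : ℝ) ^ D) ^ N) ^ s := by
      rw [← pow_mul, ← pow_mul, ← pow_mul]
      congr 1
      rw [hS]
      ring
    rw [e1]
    generalize (S : ℝ) = a
    ring
  have hfin : Δ ^ s ≤ (((S : ℝ) ^ (2 * D)) ^ N * MLr r ^ (2 * (S - 1))) ^ s := by
    rw [← hL, ← hR]
    calc ∏ g : L ≃ₐ[ℚ] L, ∏ z : C, ∏ z' ∈ univ.erase z, RR r (g * z) (g * z') ≤
        (∏ g : L ≃ₐ[ℚ] L, ∏ z : C, dd r (g * z)) *
          ∏ g : L ≃ₐ[ℚ] L, ∏ z : C, ∏ z' ∈ univ.erase z, RR r (g * z) (g * z') :=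
          le_mul_of_one_le_left (prod_nonneg fun _ _ => prod_nonneg fun _ _ =>
            prod_nonneg fun _ _ => hRR0 _ _) hDd
      _ = ∏ g : L ≃ₐ[ℚ] L, ((∏ z : C, dd r (g * z)) *
          ∏ z : C, ∏ z' ∈ univ.erase z, RR r (g * z) (g * z')) := prod_mul_distrib.symm
      _ ≤ _ := prod_le_prod (fun g _ => mul_nonneg (prod_nonneg fun _ _ => hdd0 _)
          (prod_nonneg fun _ _ => prod_nonneg fun _ _ => hRR0 _ _)) (fun g _ => hloc g)
  have hfin2 : Δ ≤ ((S : ℝ) ^ (2 * D)) ^ N * MLr r ^ (2 * (S - 1)) :=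
    le_of_pow_le_pow_left₀ hs0 (by positivity) hfin
  refine le_trans (le_of_eq ?_) hfin2
  unfold DR
  rw [Nat.cast_prod, hΔ, prod_comm]
  symm
  refine prod_bij (fun (u : C) _ => (u : L ≃ₐ[ℚ] L)) ?_ ?_ ?_ ?_
  · intro u hu
    rw [mem_erase] at hu
    unfold cen
    rw [mem_filter]
    refine ⟨mem_univ _, u.2, ?_⟩
    intro h
    exact hu.1 (Subtype.ext h)
  · intro a _ b _ h
    exact Subtype.ext h
  · intro b hb
    unfold cen at hb
    rw [mem_filter] at hb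
    refine ⟨⟨b, hb.2.1⟩, ?_, rfl⟩
    rw [mem_erase]
    refine ⟨?_, mem_univ _⟩
    intro h
    exact hb.2.2 (congrArg Subtype.val h)
  · intro u _
    rw [nm_Rz ι hD r hr]

end

end Pool.Agent.Q98.SR
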