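import Mathlib
import Pool.Agent.Q98.SR.D

/-!
# The minimal polynomial over a Galois field and its conjugates
-/

set_option autoImplicit false

open NumberField Polynomial Finset

namespace Pool.Agent.Q98.SR

open Pool.Agent.Q98.SG

lemma mahler_pow (f : ℂ[X]) (n : ℕ) : (f ^ n).mahlerMeasure = f.mahlerMeasure ^ n := by
  induction n with
  | zero => rw [pow_zero, pow_zero, mahlerMeasure_one]
  | succ n ih => rw [pow_succ, pow_succ, mahlerMeasure_mul, ih]

lemma mahler_prod {ι : Type*} (s : Finset ι) (f : ι → ℂ[X]) :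
    (∏ i ∈ s, f i).mahlerMeasure = ∏ i ∈ s, (f i).mahlerMeasure := by
  classical
  induction s using Finset.induction_on with
  | empty => rw [prod_empty, prod_empty, mahlerMeasure_one]
  | insert a s ha ih => rw [prod_insert ha, prod_insert ha, mahlerMeasure_mul, ih]

/-- powers of conjugates -/
lemma root_of_unity {α u : ℂ} (hα0 : α ≠ 0) (hαq : IsIntegral ℚ α) (hrt : ∀ k : ℕ, 0 < k → α ^ k ≠ 1)
    {a : ℕ} (ha : 1 < a) (hu : aeval u (minpoly ℚ α) = 0) : aeval (u ^ a) (minpoly ℚ α) ≠ 0 := by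
  intro hua
  have hmu : minpoly ℚ α = minpoly ℚ u :=
    minpoly.eq_of_irreducible_of_monic (minpoly.irreducible hαq) hu (minpoly.monic hαq)
  have hdvd : minpoly ℚ α ∣ expand ℚ a (minpoly ℚ α) := by
    conv_lhs => rw [hmu]
    apply minpoly.dvd
    rw [expand_aeval]
    exact hua
  have hstep : ∀ v : ℂ, aeval v (minpoly ℚ α) = 0 → aeval (v ^ a) (minpoly ℚ α) = 0 := by
    intro v hv
    obtain ⟨q, hq⟩ := hdvd
    rw [← expand_aeval, hq, map_mul, hv, zero_mul]
  have hall : ∀ k : ℕ, aeval (α ^ (a ^ k)) (minpoly ℚ α) = 0 := by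
    intro k
    induction k with
    | zero => rw [pow_zero, pow_one]; exact minpoly.aeval ℚ α
    | succ k ih =>
      have := hstep _ ih
      rwa [← pow_mul, ← pow_succ] at this
  have hfin : ((minpoly ℚ α).rootSet ℂ).Finite := rootSet_finite _ _
  obtain ⟨k, l, hkl, heq⟩ : ∃ k l : ℕ, k < l ∧ α ^ (a ^ k) = α ^ (a ^ l) := by
    have hmaps : Set.MapsTo (fun k : ℕ => α ^ (a ^ k)) Set.univ ((minpoly ℚ α).rootSet ℂ) := by
      intro k _
      rw [mem_rootSet]
      exact ⟨minpoly.ne_zero hαq, hall k⟩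
    obtain ⟨k, -, l, -, hne, heq⟩ := Set.infinite_univ.exists_ne_map_eq_of_mapsTo hmaps hfin
    rcases lt_or_gt_of_ne hne with h | h
    · exact ⟨k, l, h, heq⟩
    · exact ⟨l, k, h, heq.symm⟩
  have hlt : a ^ k < a ^ l := Nat.pow_lt_pow_right ha hkl
  apply hrt (a ^ l - a ^ k) (by omega)
  have h1 : α ^ (a ^ l) = α ^ (a ^ k) * α ^ (a ^ l - a ^ k) := by
    rw [← pow_add, Nat.add_sub_cancel' hlt.le]
  rw [h1] at heq
  have h2 : α ^ (a ^ k) ≠ 0 := pow_ne_zero _ hα0
  exact (mul_right_cancel₀ h2 (by rw [one_mul, mul_comm]; exact heq)).symm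

section

variable {E : IntermediateField ℚ ℂ} [NumberField E] [IsGalois ℚ E]

/-- the minimal polynomial over the ring of integers -/
noncomputable def FF (E : IntermediateField ℚ ℂ) (α : ℂ) : (𝓞 E)[X] := minpoly (𝓞 E) α

variable {α : ℂ}

omit [IsGalois ℚ E] in
lemma int_OE (hα : IsIntegral ℤ α) : IsIntegral (𝓞 E) α := hα.tower_top

omit [IsGalois ℚ E] in
lemma FF_map (hα : IsIntegral ℤ α) : (FF E α).map (algebraMap (𝓞 E) E) = minpoly E α :=
  (minpoly.isIntegrallyClosed_eq_field_fractions E ℂ (int_OE hα)).symm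

omit [IsGalois ℚ E] in
lemma FF_monic (hα : IsIntegral ℤ α) : (FF E α).Monic := minpoly.monic (int_OE hα)

omit [IsGalois ℚ E] in
lemma FF_natDegree (hα : IsIntegral ℤ α) : (FF E α).natDegree = (minpoly E α).natDegree := by
  rw [← FF_map hα, (FF_monic hα).natDegree_map]

omit [IsGalois ℚ E] in
lemma FF_psi (hα : IsIntegral ℤ α) (g : E ≃ₐ[ℚ] E) : (FF E α).map (psi E.val g) =
    ((minpoly E α).map (g : E →+* E)).map (algebraMap E ℂ) := by
  rw [← FF_map hα, Polynomial.map_map, Polynomial.map_map]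
  rfl

omit [IsGalois ℚ E] in
lemma irr_map (hα : IsIntegral ℤ α) (g : E ≃ₐ[ℚ] E) :
    Irreducible ((minpoly E α).map (g : E →+* E)) := by
  have h1 : Irreducible (minpoly E α) := minpoly.irreducible hα.tower_top
  have h2 := (MulEquiv.irreducible_iff (Polynomial.mapEquiv g.toRingEquiv)).2 h1
  exact h2

omit [IsGalois ℚ E] in
lemma mon_map (hα : IsIntegral ℤ α) (g : E ≃ₐ[ℚ] E) :
    ((minpoly E α).map (g : E →+* E)).Monic := (minpoly.monic hα.tower_top).map _

omit [IsGalois ℚ E] in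
/-- polynomials with a common zero are equal -/
lemma eq_of_root (hα : IsIntegral ℤ α) (g h : E ≃ₐ[ℚ] E) {u : ℂ}
    (h1 : ((FF E α).map (psi E.val g)).eval u = 0) (h2 : ((FF E α).map (psi E.val h)).eval u = 0) :
    (minpoly E α).map (g : E →+* E) = (minpoly E α).map (h : E →+* E) := by
  rw [FF_psi hα, eval_map_algebraMap] at h1 h2
  rw [minpoly.eq_of_irreducible_of_monic (irr_map hα g) h1 (mon_map hα g),
    minpoly.eq_of_irreducible_of_monic (irr_map hα h) h2 (mon_map hα h)]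

omit [IsGalois ℚ E] in
lemma dvd_min (hα : IsIntegral ℤ α) (g : E ≃ₐ[ℚ] E) :
    (minpoly E α).map (g : E →+* E) ∣ (minpoly ℚ α).map (algebraMap ℚ E) := by
  have h1 : minpoly E α ∣ (minpoly ℚ α).map (algebraMap ℚ E) :=
    minpoly.dvd_map_of_isScalarTower ℚ E α
  have h2 := Polynomial.map_dvd (g : E →+* E) h1
  rw [Polynomial.map_map] at h2
  have h3 : (g : E →+* E).comp (algebraMap ℚ E) = algebraMap ℚ E := by
    ext x
    simp
  rwa [h3] at h2

omit [IsGalois ℚ E] in
lemma root_min (hα : IsIntegral ℤ α) (g : E ≃ₐ[ℚ] E) {u : ℂ}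
    (h1 : ((FF E α).map (psi E.val g)).eval u = 0) : aeval u (minpoly ℚ α) = 0 := by
  rw [FF_psi hα, eval_map_algebraMap] at h1
  obtain ⟨q, hq⟩ := dvd_min hα g
  have h2 : aeval u ((minpoly ℚ α).map (algebraMap ℚ E)) = 0 := by
    rw [hq, map_mul, h1, zero_mul]
  rwa [aeval_map_algebraMap] at h2

/-- the product of the conjugates is a power of the minimal polynomial over `ℚ` -/
lemma prod_eq (hα : IsIntegral ℤ α) : ∃ m : ℕ,
    ∏ g : E ≃ₐ[ℚ] E, (FF E α).map (psi E.val g) =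
      ((minpoly ℚ α).map (algebraMap ℚ ℂ)) ^ m := by
  classical
  set FL := minpoly E α with hFL
  set Φ : E[X] := ∏ g : E ≃ₐ[ℚ] E, FL.map (g : E →+* E) with hΦ
  have hinv : ∀ h : E ≃ₐ[ℚ] E, Φ.map (h : E →+* E) = Φ := by
    intro h
    rw [hΦ, Polynomial.map_prod, ← Equiv.prod_comp (Equiv.mulLeft h)
      (fun g : E ≃ₐ[ℚ] E => FL.map (g : E →+* E))]
    refine prod_congr rfl fun g _ => ?_
    rw [Polynomial.map_map]
    rfl
  have hlift : Φ ∈ Polynomial.lifts (algebraMap ℚ E) := by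
    rw [lifts_iff_coeff_lifts]
    intro n
    have h1 : Φ.coeff n ∈ (⊥ : IntermediateField ℚ E) := by
      rw [IsGalois.mem_bot_iff_fixed]
      intro h
      have h2 := congrArg (fun q => q.coeff n) (hinv h)
      rw [coeff_map] at h2
      exact h2
    rw [IntermediateField.mem_bot] at h1
    exact h1
  obtain ⟨P, hP⟩ := (mem_lifts _).1 hlift
  have hΦm : Φ.Monic := monic_prod_of_monic _ _ fun g _ => mon_map hα g
  have hPm : P.Monic := by
    apply monic_of_injective (algebraMap ℚ E).injective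
    rw [hP]
    exact hΦm
  have hαq : IsIntegral ℚ α := hα.tower_top
  have hdvd : P ∣ (minpoly ℚ α) ^ (Fintype.card (E ≃ₐ[ℚ] E)) := by
    rw [← Polynomial.map_dvd_map' (algebraMap ℚ E), hP, Polynomial.map_pow]
    have h1 : ∏ g : E ≃ₐ[ℚ] E, FL.map (g : E →+* E) ∣
        ∏ _g : E ≃ₐ[ℚ] E, (minpoly ℚ α).map (algebraMap ℚ E) :=
      prod_dvd_prod_of_dvd _ _ fun g _ => dvd_min hα g
    rwa [prod_const, card_univ] at h1
  obtain ⟨m, -, hass⟩ := (dvd_prime_pow (minpoly.prime hαq) _).1 hdvd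
  have hPe : P = (minpoly ℚ α) ^ m :=
    eq_of_monic_of_associated hPm ((minpoly.monic hαq).pow m) hass
  refine ⟨m, ?_⟩
  have h1 : ∏ g : E ≃ₐ[ℚ] E, (FF E α).map (psi E.val g) = Φ.map (algebraMap E ℂ) := by
    rw [hΦ, Polynomial.map_prod]
    exact prod_congr rfl fun g _ => FF_psi hα g
  rw [h1, ← hP, hPe, Polynomial.map_map, Polynomial.map_pow]
  congr 2

end

end Pool.Agent.Q98.SR
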