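import Mathlib
import Pool.Agent.Q98.SR.E
import Pool.Agent.Q98.SG.G

/-!
# The conjugates of an algebraic integer of bounded degree over a Galois field
-/

set_option autoImplicit false

open NumberField Polynomial Finset

namespace Pool.Agent.Q98.SR

open Pool.Agent.Q98.SG

lemma pol_eval_self {D : ℕ} (x : Fin D → ℂ) (i : Fin D) : (pol x).eval (x i) = 0 := by
  rw [pol_eval]
  exact prod_eq_zero (mem_univ i) (sub_self _)

section

variable {E : IntermediateField ℚ ℂ} [NumberField E] [IsGalois ℚ E] {α : ℂ}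

omit [IsGalois ℚ E] in
lemma exists_r (hα : IsIntegral ℤ α) :
    ∃ r : (E ≃ₐ[ℚ] E) → Fin (minpoly E α).natDegree → ℂ,
      ∀ g, (FF E α).map (psi E.val g) = pol (r g) := by
  have h1 : ∀ g : E ≃ₐ[ℚ] E, ∃ x : Fin (minpoly E α).natDegree → ℂ,
      (FF E α).map (psi E.val g) = pol x := by
    intro g
    apply exists_pol ((FF_monic hα).map _)
    rw [(FF_monic hα).natDegree_map, FF_natDegree hα]
  choose r hr using h1
  exact ⟨r, hr⟩

variable {D : ℕ} {r : (E ≃ₐ[ℚ] E) → Fin D → ℂ}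

omit [IsGalois ℚ E] in
lemma r_inj (hα : IsIntegral ℤ α) (hr : ∀ g, (FF E α).map (psi E.val g) = pol (r g))
    (g : E ≃ₐ[ℚ] E) : Function.Injective (r g) := by
  have h1 : ((minpoly E α).map (g : E →+* E)).Separable := (irr_map hα g).separable
  have h2 : (pol (r g)).Separable := by
    rw [← hr, FF_psi hα]
    exact h1.map
  have h3 := nodup_roots h2
  rw [pol_roots] at h3
  intro i j hij
  exact Multiset.inj_on_of_nodup_map h3 i (by simp) j (by simp) hij

omit [IsGalois ℚ E] in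
lemma r_eq (hα : IsIntegral ℤ α) (hr : ∀ g, (FF E α).map (psi E.val g) = pol (r g))
    {g h : E ≃ₐ[ℚ] E} {i j : Fin D} (hij : r g i = r h j) :
    (minpoly E α).map (g : E →+* E) = (minpoly E α).map (h : E →+* E) := by
  apply eq_of_root hα g h (u := r g i)
  · rw [hr, pol_eval_self]
  · rw [hr, hij, pol_eval_self]

omit [IsGalois ℚ E] in
lemma fix_of_eq {g z : E ≃ₐ[ℚ] E} (h : (minpoly E α).map (g : E →+* E) =
    (minpoly E α).map ((g * z : E ≃ₐ[ℚ] E) : E →+* E)) :
    (minpoly E α).map (z : E →+* E) = minpoly E α := by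
  apply Polynomial.map_injective (g : E →+* E) (RingHom.injective _)
  rw [h, Polynomial.map_map]
  rfl

lemma Rz_ne (hα : IsIntegral ℤ α) (hD : (FF E α).natDegree = D)
    (hr : ∀ g, (FF E α).map (psi E.val g) = pol (r g))
    (hfa : ∀ z ∈ Subgroup.center (E ≃ₐ[ℚ] E),
      (minpoly E α).map (z : E →+* E) = minpoly E α → z = 1) :
    ∀ z ∈ cen E, Rz (FF E α) z ≠ 0 := by
  classical
  intro z hz h0
  have h1 := nm_Rz E.val hD r hr z
  rw [h0] at h1
  have h2 : nm (0 : 𝓞 E) = 0 := by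
    unfold nm
    rw [Algebra.norm_zero]
    rfl
  rw [h2, Nat.cast_zero] at h1
  obtain ⟨g, -, hg⟩ := prod_eq_zero_iff.1 h1.symm
  unfold RR at hg
  obtain ⟨i, -, hi⟩ := prod_eq_zero_iff.1 hg
  obtain ⟨j, -, hj⟩ := prod_eq_zero_iff.1 hi
  rw [norm_eq_zero, sub_eq_zero] at hj
  unfold cen at hz
  rw [mem_filter] at hz
  exact hz.2.2 (hfa z hz.2.1 (fix_of_eq (r_eq hα hr hj)))

omit [IsGalois ℚ E] in
lemma r_root (hα : IsIntegral ℤ α) (hr : ∀ g, (FF E α).map (psi E.val g) = pol (r g))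
    (z : E ≃ₐ[ℚ] E) (i : Fin D) : aeval (r z i) (minpoly ℚ α) = 0 :=
  root_min hα z (by rw [hr, pol_eval_self])

omit [IsGalois ℚ E] in
lemma sc_le' (hα : IsIntegral ℤ α)
    (hr : ∀ g, (FF E α).map (psi E.val g) = pol (r g))
    (hfa : ∀ z ∈ Subgroup.center (E ≃ₐ[ℚ] E),
      (minpoly E α).map (z : E →+* E) = minpoly E α → z = 1) :
    sc E * D ≤ (minpoly ℚ α).natDegree := by
  classical
  have hαq : IsIntegral ℚ α := hα.tower_top
  have h1 : ∀ (z : E ≃ₐ[ℚ] E) (i : Fin D), r z i ∈ ((minpoly ℚ α).aroots ℂ).toFinset := by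
    intro z i
    rw [Multiset.mem_toFinset, mem_aroots]
    exact ⟨minpoly.ne_zero hαq, r_root hα hr z i⟩
  have h2 : Function.Injective (fun x : Subgroup.center (E ≃ₐ[ℚ] E) × Fin D =>
      (⟨r x.1 x.2, h1 _ _⟩ : ((minpoly ℚ α).aroots ℂ).toFinset)) := by
    rintro ⟨z, i⟩ ⟨z', j⟩ h
    have h3 : r z i = r z' j := congrArg Subtype.val h
    have h4 := r_eq hα hr h3
    have h5 : (minpoly E α).map
        (((z⁻¹ * z' : Subgroup.center (E ≃ₐ[ℚ] E)) : E ≃ₐ[ℚ] E) : E →+* E) = minpoly E α := by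
      apply fix_of_eq (g := (z : E ≃ₐ[ℚ] E))
      rw [h4]
      congr 2
      push_cast
      rw [mul_inv_cancel_left]
    have h6 := hfa _ (Subtype.mem _) h5
    have h7 : z = z' := inv_mul_eq_one.1 (Subtype.ext h6)
    subst h7
    rw [r_inj hα hr _ h3]
  have h3 := Nat.card_le_card_of_injective _ h2
  rw [Nat.card_prod, Nat.card_fin, Nat.card_eq_fintype_card (α := ((minpoly ℚ α).aroots ℂ).toFinset),
    Fintype.card_coe] at h3
  calc sc E * D ≤ ((minpoly ℚ α).aroots ℂ).toFinset.card := h3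
    _ ≤ Multiset.card ((minpoly ℚ α).aroots ℂ) := Multiset.toFinset_card_le _
    _ ≤ ((minpoly ℚ α).map (algebraMap ℚ ℂ)).natDegree := card_roots' _
    _ ≤ (minpoly ℚ α).natDegree := natDegree_map_le

lemma prod_facts (hα : IsIntegral ℤ α)
    (hr : ∀ g, (FF E α).map (psi E.val g) = pol (r g)) :
    ∃ m : ℕ, m * (minpoly ℚ α).natDegree = Module.finrank ℚ E * D ∧
      MLr r = ((minpoly ℚ α).map (algebraMap ℚ ℂ)).mahlerMeasure ^ m := by
  obtain ⟨m, hm⟩ := prod_eq (E := E) hα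
  have hαq : IsIntegral ℚ α := hα.tower_top
  refine ⟨m, ?_, ?_⟩
  · have h1 := congrArg natDegree hm
    rw [natDegree_prod_of_monic _ _ fun g _ => (FF_monic hα).map _,
      ((minpoly.monic hαq).map _).natDegree_pow, (minpoly.monic hαq).natDegree_map] at h1
    rw [← h1, ← IsGalois.card_aut_eq_finrank ℚ E, Nat.card_eq_fintype_card]
    simp only [hr, pol_natDegree, sum_const, card_univ, smul_eq_mul]
  · have h1 := congrArg mahlerMeasure hm
    rw [mahler_prod, mahler_pow] at h1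
    rw [← h1]
    unfold MLr
    refine prod_congr rfl fun g _ => ?_
    rw [hr, pol_mahler]

lemma one_le_prod_real {ι : Type*} (s : Finset ι) (f : ι → ℝ) (hf : ∀ i ∈ s, 1 ≤ f i) :
    1 ≤ ∏ i ∈ s, f i :=
  Finset.prod_induction f (fun x => 1 ≤ x)
    (fun _ _ ha hb => one_le_mul_of_one_le_of_one_le ha hb) le_rfl hf

omit [IsGalois ℚ E] in
lemma MLr_ge (r : (E ≃ₐ[ℚ] E) → Fin D → ℂ) : 1 ≤ MLr r := by
  unfold MLr
  apply one_le_prod_real
  intro g _
  apply one_le_prod_real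
  intro i _
  exact le_max_left _ _

end

end Pool.Agent.Q98.SR
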