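import Mathlib
import Pool.Agent.Q98.SR.F

/-!
# The main inequality for algebraic integers of bounded degree over a Galois field
-/

set_option autoImplicit false

open NumberField Polynomial Finset

namespace Pool.Agent.Q98.SR

open Pool.Agent.Q98.SG

/-- the main inequality -/
theorem main_SR (d D₀ : ℕ) (hd : 0 < d) (hD₀ : 0 < D₀) : ∃ K : ℝ, 0 < K ∧
    ∀ (E : IntermediateField ℚ ℂ) [NumberField E] [IsGalois ℚ E],
    (∀ σ τ : E ≃ₐ[ℚ] E, σ ^ d * τ = τ * σ ^ d) →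
    ∀ α : ℂ, IsIntegral ℤ α → α ≠ 0 → (∀ k : ℕ, 0 < k → α ^ k ≠ 1) →
    (minpoly E α).natDegree ≤ D₀ →
    (∀ z ∈ Subgroup.center (E ≃ₐ[ℚ] E),
      (minpoly E α).map (z : E →+* E) = minpoly E α → z = 1) →
    1 ≤ ((minpoly ℚ α).map (algebraMap ℚ ℂ)).mahlerMeasure ∧
    ((minpoly ℚ α).natDegree : ℝ) ≤
      K * (1 + Real.log (minpoly ℚ α).natDegree +
        Real.log ((minpoly ℚ α).map (algebraMap ℚ ℂ)).mahlerMeasure) ^ d *
        Real.log ((minpoly ℚ α).map (algebraMap ℚ ℂ)).mahlerMeasure := by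
  classical
  obtain ⟨x₀, hx₀⟩ := theta_lower
  set q : ℕ := 2 ^ (d * D₀ + 1) + d with hq
  set C : ℝ := 8 * q + 16 * d + x₀ + 2 with hC
  have hC0 : 0 < C := by positivity
  refine ⟨4 * d * D₀ * C ^ d, by positivity, ?_⟩
  intro E _ _ hcen α hα hα0 hroot hdeg hfa
  have hαq : IsIntegral ℚ α := hα.tower_top
  have hαE : IsIntegral E α := hα.tower_top
  have hex := exists_r (E := E) hα
  have hD1' : 1 ≤ (minpoly E α).natDegree := minpoly.natDegree_pos hαE
  have hFD' : (FF E α).natDegree = (minpoly E α).natDegree := FF_natDegree hα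
  obtain ⟨D, hDdef⟩ : ∃ D, D = (minpoly E α).natDegree := ⟨_, rfl⟩
  rw [← hDdef] at hex hdeg hD1' hFD'
  obtain ⟨r, hr⟩ := hex
  have hD1 : 1 ≤ D := hD1'
  have hFD : (FF E α).natDegree = D := hFD'
  set n := (minpoly ℚ α).natDegree with hn
  have hn1 : 1 ≤ n := minpoly.natDegree_pos hαq
  set N := Module.finrank ℚ E with hN
  have hN0 : 0 < N := Module.finrank_pos
  obtain ⟨m, hcard, hML⟩ := prod_facts hα hr
  rw [← hn, ← hN] at hcard
  set M := ((minpoly ℚ α).map (algebraMap ℚ ℂ)).mahlerMeasure with hM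
  have hm0 : m ≠ 0 := by
    rintro h
    rw [h, zero_mul] at hcard
    have := Nat.mul_pos hN0 hD1
    omega
  have hM0 : 0 ≤ M := mahlerMeasure_nonneg _
  have hM1 : 1 ≤ M := by
    have h1 := MLr_ge r
    rw [hML] at h1
    by_contra hlt
    push Not at hlt
    have := pow_lt_one₀ hM0 hlt hm0
    linarith
  refine ⟨hM1, ?_⟩
  have hlogM : 0 ≤ Real.log M := Real.log_nonneg hM1
  have hlogn : 0 ≤ Real.log n := Real.log_nonneg (by exact_mod_cast hn1)
  set Y := 1 + Real.log n + Real.log M with hY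
  have hY1 : 1 ≤ Y := by linarith
  have hn0 : (0 : ℝ) < n := by exact_mod_cast hn1
  have hRz := Rz_ne hα hFD hr hfa
  -- the size of the central product
  have hDB : (DR (FF E α) : ℝ) ≤ ((n * M) ^ 2 : ℝ) ^ (N * D) := by
    have h1 := DR_le E.val hFD hD1 r hr (r_inj hα hr 1)
    have h2 := sc_le' hα hr hfa
    rw [← hn] at h2
    rw [hML, ← hN] at h1
    refine h1.trans ?_
    have h3 : (((sc E * D : ℕ) : ℝ) ^ (2 * D)) ^ N ≤ ((n : ℝ) ^ (2 * D)) ^ N := by
      have h4 : ((sc E * D : ℕ) : ℝ) ≤ n := by exact_mod_cast h2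
      gcongr
    have h5 : (M ^ m) ^ (2 * (sc E * D - 1)) ≤ (M ^ 2) ^ (N * D) := by
      calc (M ^ m) ^ (2 * (sc E * D - 1)) ≤ (M ^ m) ^ (2 * n) := by
            apply pow_le_pow_right₀ (one_le_pow₀ hM1)
            omega
        _ = (M ^ 2) ^ (N * D) := by
            rw [← pow_mul, ← pow_mul, ← hcard]
            congr 1
            ring
    calc (((sc E * D : ℕ) : ℝ) ^ (2 * D)) ^ N * (M ^ m) ^ (2 * (sc E * D - 1)) ≤
        ((n : ℝ) ^ (2 * D)) ^ N * (M ^ 2) ^ (N * D) := by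
          apply mul_le_mul h3 h5 (by positivity) (by positivity)
      _ = ((n * M) ^ 2 : ℝ) ^ (N * D) := by
          rw [mul_pow, mul_pow]
          congr 1
          rw [← pow_mul, ← pow_mul]
          congr 1
          ring
  -- the choice of the prime
  obtain ⟨x, hx1, hx2⟩ : ∃ x : ℕ, 8 * q + 16 * d * Y + x₀ < x ∧
      (x : ℝ) ≤ 8 * q + 16 * d * Y + x₀ + 1 := by
    have h0 : 0 ≤ 8 * q + 16 * d * Y + x₀ := by positivity
    refine ⟨⌊8 * q + 16 * d * Y + x₀⌋₊ + 1, ?_, ?_⟩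
    · exact_mod_cast Nat.lt_floor_add_one _
    · push_cast
      linarith [Nat.floor_le h0]
  have hdY : 0 ≤ 16 * d * Y := by positivity
  have hxx₀ : x₀ ≤ x := by
    have h1 : (0 : ℝ) ≤ 8 * q := by positivity
    have h2 : (x₀ : ℝ) < x := by linarith
    exact_mod_cast h2.le
  have hqx : q ≤ x := by
    have h1 : (0 : ℝ) ≤ x₀ := Nat.cast_nonneg _
    have h3 : (0 : ℝ) ≤ q := Nat.cast_nonneg _
    have h2 : (q : ℝ) < x := by linarith
    exact_mod_cast h2.le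
  have hxC : (x : ℝ) ≤ C * Y := by
    have h1 : (0 : ℝ) ≤ 8 * q + x₀ + 1 := by positivity
    calc (x : ℝ) ≤ 8 * q + 16 * d * Y + x₀ + 1 := hx2
      _ ≤ (8 * q + x₀ + 1) * Y + 16 * d * Y := by nlinarith
      _ ≤ C * Y := by rw [hC]; nlinarith
  obtain ⟨p, hp, hqp, hpx, hgood⟩ : ∃ p : ℕ, p.Prime ∧ q < p ∧ p ≤ x ∧
      (Ideal.span {(p : 𝓞 E)}).radical ^ d ≤ Ideal.span {(p : 𝓞 E)} := by
    by_contra hcon
    push Not at hcon
    have hbad : ∀ p : ℕ, p.Prime → q < p → p ≤ x →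
        p ^ (N * D) ∣ DR (FF E α) ^ (2 * d) := by
      intro p hp hqp hpx
      have hdp : d < p := lt_of_le_of_lt (hq ▸ Nat.le_add_left _ _) hqp
      rcases bad_dvd' hp hd hdp hcen (FF_monic hα) hRz with h | h
      · exact absurd h (hcon p hp hqp hpx)
      · rw [hFD] at h
        exact h
    have hD0 : DR (FF E α) ≠ 0 := by
      unfold DR
      rw [Finset.prod_ne_zero_iff]
      intro z hz
      exact nm_ne_zero (hRz z hz)
    have hB1 : (1 : ℝ) ≤ (n * M) ^ 2 := by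
      have h1 : (1 : ℝ) ≤ n := by exact_mod_cast hn1
      have : (1 : ℝ) ≤ n * M := by nlinarith
      exact one_le_pow₀ this
    have h1 := bad_primes hD0 (Nat.mul_pos hN0 hD1) hB1 hDB hbad
    have h2 := theta_sub hqx
    have h3 := hx₀ x hxx₀
    have h4 := Chebyshev.theta_le_log4_mul_x (x := (q : ℝ)) (Nat.cast_nonneg _)
    have h5 : Real.log 4 ≤ 2 := by
      have h6 : (4 : ℝ) = 2 ^ 2 := by norm_num
      rw [h6, Real.log_pow]
      have := Real.log_two_lt_d9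
      push_cast
      linarith
    have h7 : Real.log ((n * M) ^ 2) = 2 * (Real.log n + Real.log M) := by
      rw [Real.log_pow, Real.log_mul (by positivity) (by linarith)]
      push_cast
      ring
    rw [h7] at h1
    have h9 : ((2 * d : ℕ) : ℝ) * (2 * (Real.log n + Real.log M)) ≤ 4 * d * Y := by
      push_cast
      have : Real.log n + Real.log M ≤ Y := by rw [hY]; linarith
      have hd0 : (0 : ℝ) ≤ d := Nat.cast_nonneg _
      nlinarith
    have h10 : Real.log 4 * q ≤ 2 * q := by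
      have : (0 : ℝ) ≤ q := Nat.cast_nonneg _
      nlinarith
    have h11 : (0 : ℝ) ≤ x₀ := Nat.cast_nonneg _
    linarith
  -- the bound
  have hnz : ∀ (σ : E ≃ₐ[ℚ] E) (i j : Fin D), (r 1 i) ^ (p ^ d) ≠ r σ j := by
    intro σ i j h
    have ha : 1 < p ^ d := Nat.one_lt_pow hd.ne' hp.one_lt
    apply root_of_unity hα0 hαq hroot ha (r_root hα hr 1 i)
    rw [h]
    exact r_root hα hr σ j
  have hb := good_bound' hp hgood hcen E.val hFD r hr hnz
  rw [hML, ← hN] at hb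
  have hq2 : (2 : ℝ) ^ (d * D + 1) ≤ p := by
    have h1 : 2 ^ (d * D + 1) ≤ 2 ^ (d * D₀ + 1) :=
      Nat.pow_le_pow_right (by norm_num) (by
        have := Nat.mul_le_mul_left d hdeg
        omega)
    have h2 : 2 ^ (d * D + 1) ≤ p := by omega
    exact_mod_cast h2
  have h1 : ((2 : ℝ) ^ (d * D + 1)) ^ (N * D) ≤
      (2 ^ (D ^ 2 * N) * (M ^ m) ^ ((p ^ d + 1) * D)) ^ d :=
    (pow_le_pow_left₀ (by positivity) hq2 _).trans hb
  have h2 : ((2 : ℝ) ^ n) ^ m ≤ (M ^ ((p ^ d + 1) * D * d)) ^ m := by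
    have h3 : ((2 : ℝ) ^ (d * D + 1)) ^ (N * D) = 2 ^ (D ^ 2 * N * d) * (2 ^ n) ^ m := by
      rw [← pow_mul, ← pow_mul, ← pow_add]
      congr 1
      rw [mul_comm n m, hcard]
      ring
    have h4 : (2 ^ (D ^ 2 * N) * (M ^ m) ^ ((p ^ d + 1) * D)) ^ d =
        2 ^ (D ^ 2 * N * d) * (M ^ ((p ^ d + 1) * D * d)) ^ m := by
      rw [mul_pow, ← pow_mul, ← pow_mul, ← pow_mul, ← pow_mul]
      congr 2
      ring
    rw [h3, h4] at h1
    exact le_of_mul_le_mul_left h1 (by positivity)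
  have h3 : (2 : ℝ) ^ n ≤ M ^ ((p ^ d + 1) * D * d) :=
    le_of_pow_le_pow_left₀ hm0 (by positivity) h2
  have h5 := Real.log_le_log (by positivity) h3
  rw [Real.log_pow, Real.log_pow] at h5
  have h6 : (1 : ℝ) / 2 ≤ Real.log 2 := by
    have := Real.log_two_gt_d9
    linarith
  have h7 : (n : ℝ) ≤ 2 * (((p ^ d + 1) * D * d : ℕ) : ℝ) * Real.log M := by nlinarith
  refine h7.trans ?_
  apply mul_le_mul_of_nonneg_right _ hlogM
  push_cast
  have h8 : (p : ℝ) ≤ C * Y := by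
    have : (p : ℝ) ≤ x := by exact_mod_cast hpx
    linarith
  have h9 : (p : ℝ) ^ d ≤ (C * Y) ^ d := pow_le_pow_left₀ (Nat.cast_nonneg _) h8 d
  have h10 : (1 : ℝ) ≤ (p : ℝ) ^ d := one_le_pow₀ (by exact_mod_cast hp.one_le)
  have hd0 : (0 : ℝ) ≤ d := Nat.cast_nonneg _
  have hDD : (D : ℝ) ≤ D₀ := by exact_mod_cast hdeg
  have hDn : (0 : ℝ) ≤ D := Nat.cast_nonneg _
  calc 2 * (((p : ℝ) ^ d + 1) * D * d) ≤ 2 * ((2 * (C * Y) ^ d) * D₀ * d) := by
        gcongr
        linarith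
    _ = 4 * d * D₀ * C ^ d * Y ^ d := by rw [mul_pow]; ring

end Pool.Agent.Q98.SR
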