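import Mathlib
import Pool.Agent.Q98.SR.G
import Pool.Agent.Q98.SG.H

/-!
# Reduction to a faithful central action, and the bound
-/

set_option autoImplicit false

open NumberField Polynomial

namespace Pool.Agent.Q98.SR

open Pool.Agent.Q98.SG

/-- a reduction to a Galois field generated by the conjugates -/
theorem reduction2 {d : ℕ} (L : IntermediateField ℚ ℂ) [FiniteDimensional ℚ L] [IsGalois ℚ L]
    (hcen : ∀ σ τ : L ≃ₐ[ℚ] L, σ ^ d * τ = τ * σ ^ d) {x : ℂ} (hx : x ∈ L) :
    ∃ E : IntermediateField ℚ ℂ, E ≤ L ∧ FiniteDimensional ℚ E ∧ IsGalois ℚ E ∧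
      (∀ σ τ : E ≃ₐ[ℚ] E, σ ^ d * τ = τ * σ ^ d) ∧ ∃ hxE : x ∈ E,
      ∀ z : E ≃ₐ[ℚ] E, (∀ g : E ≃ₐ[ℚ] E, z * g = g * z) → z ⟨x, hxE⟩ = ⟨x, hxE⟩ → z = 1 := by
  classical
  have hLnor : Normal ℚ L := inferInstance
  set t : L := ⟨x, hx⟩ with ht
  have hinj : Function.Injective (algebraMap L ℂ) := (algebraMap L ℂ).injective
  have htq : IsIntegral ℚ t := Algebra.IsIntegral.isIntegral t
  have hmt : minpoly ℚ t = minpoly ℚ x := (minpoly.algebraMap_eq hinj t).symm
  set p := minpoly ℚ x with hp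
  have hxq : IsIntegral ℚ x := by
    have := htq.map (IsScalarTower.toAlgHom ℚ L ℂ)
    exact this
  have hp0 : p ≠ 0 := minpoly.ne_zero hxq
  set E := IntermediateField.adjoin ℚ (p.rootSet ℂ) with hE
  have hsplit : IsSplittingField ℚ E p :=
    IntermediateField.adjoin_rootSet_isSplittingField (IsAlgClosed.splits _)
  have hfd : FiniteDimensional ℚ E := IsSplittingField.finiteDimensional E p
  have hnor : Normal ℚ E := Normal.of_isSplittingField p
  have hgal : IsGalois ℚ E := ⟨⟩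
  have hEL : E ≤ L := by
    rw [hE, IntermediateField.adjoin_le_iff]
    intro y hy
    rw [mem_rootSet] at hy
    have h1 : ((minpoly ℚ t).map (algebraMap ℚ L)).Splits := hLnor.splits t
    rw [hmt] at h1
    have h3 := h1.image_rootSet (L.val)
    have h4 : y ∈ p.rootSet ℂ := by rw [mem_rootSet]; exact hy
    rw [← h3] at h4
    obtain ⟨w, -, rfl⟩ := h4
    exact w.2
  let _ : Algebra E L := (IntermediateField.inclusion hEL).toAlgebra
  have _ : IsScalarTower ℚ E L := IsScalarTower.of_algebraMap_eq (fun _ => rfl)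
  have hsurj : Function.Surjective (AlgEquiv.restrictNormalHom E : (L ≃ₐ[ℚ] L) →* (E ≃ₐ[ℚ] E)) :=
    AlgEquiv.restrictNormalHom_surjective L
  refine ⟨E, hEL, hfd, hgal, ?_, ?_⟩
  · intro σ τ
    obtain ⟨σ', rfl⟩ := hsurj σ
    obtain ⟨τ', rfl⟩ := hsurj τ
    rw [← map_pow, ← map_mul, ← map_mul, hcen]
  · have hxE : x ∈ E := by
      apply IntermediateField.subset_adjoin
      rw [mem_rootSet]
      exact ⟨hp0, minpoly.aeval ℚ x⟩
    refine ⟨hxE, ?_⟩
    intro z hz hzx
    have key : ∀ y (hy : y ∈ E), z ⟨y, hy⟩ = ⟨y, hy⟩ := by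
      intro y hy
      have hy' : y ∈ IntermediateField.adjoin ℚ (p.rootSet ℂ) := hy
      induction hy' using IntermediateField.adjoin_induction with
      | mem y hyp =>
        rw [mem_rootSet] at hyp
        have hinjE : Function.Injective (algebraMap E ℂ) := (algebraMap E ℂ).injective
        have h1 : minpoly ℚ (⟨y, hy⟩ : E) = minpoly ℚ y :=
          (minpoly.algebraMap_eq hinjE (⟨y, hy⟩ : E)).symm
        have h2 : minpoly ℚ (⟨x, hxE⟩ : E) = minpoly ℚ x :=
          (minpoly.algebraMap_eq hinjE (⟨x, hxE⟩ : E)).symm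
        have h3 : p = minpoly ℚ y :=
          minpoly.eq_of_irreducible_of_monic (minpoly.irreducible hxq) hyp.2 (minpoly.monic hxq)
        have hconj : IsConjRoot ℚ (⟨y, hy⟩ : E) (⟨x, hxE⟩ : E) := by
          unfold IsConjRoot
          rw [h1, h2, ← h3]
        obtain ⟨g, hg⟩ := hconj.exists_algEquiv
        rw [← hg, ← AlgEquiv.mul_apply, hz, AlgEquiv.mul_apply, hzx]
      | algebraMap y => exact z.commutes y
      | add a b ha hb iha ihb =>
        have h1 := iha ha
        have h2 := ihb hb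
        have h3 : (⟨a + b, hy⟩ : E) = ⟨a, ha⟩ + ⟨b, hb⟩ := rfl
        rw [h3, map_add, h1, h2]
      | inv a ha iha =>
        have h1 := iha ha
        have h3 : (⟨a⁻¹, hy⟩ : E) = (⟨a, ha⟩)⁻¹ := rfl
        rw [h3, map_inv₀, h1]
      | mul a b ha hb iha ihb =>
        have h1 := iha ha
        have h2 := ihb hb
        have h3 : (⟨a * b, hy⟩ : E) = ⟨a, ha⟩ * ⟨b, hb⟩ := rfl
        rw [h3, map_mul, h1, h2]
    ext y
    exact congrArg Subtype.val (key y.1 y.2)


/-- a smaller Galois field which contains the coefficients of the minimal polynomial -/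
theorem reduction3 {d : ℕ} (L : IntermediateField ℚ ℂ) [FiniteDimensional ℚ L] [IsGalois ℚ L]
    (hcen : ∀ σ τ : L ≃ₐ[ℚ] L, σ ^ d * τ = τ * σ ^ d) {α : ℂ} (hα : IsIntegral ℚ α) :
    ∃ E : IntermediateField ℚ ℂ, FiniteDimensional ℚ E ∧ IsGalois ℚ E ∧
      (∀ σ τ : E ≃ₐ[ℚ] E, σ ^ d * τ = τ * σ ^ d) ∧
      (minpoly E α).natDegree = (minpoly L α).natDegree ∧
      ∀ z : E ≃ₐ[ℚ] E, (∀ g : E ≃ₐ[ℚ] E, z * g = g * z) →
        (minpoly E α).map (z : E →+* E) = minpoly E α → z = 1 := by
  classical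
  set P := minpoly L α with hP
  have hαL : IsIntegral L α := hα.tower_top
  have hPm : P.Monic := minpoly.monic hαL
  set S : Set ℂ := Set.range (fun i : ℕ => algebraMap L ℂ (P.coeff i)) with hS
  set K := IntermediateField.adjoin ℚ S with hK
  have hKL : K ≤ L := by
    rw [hK, IntermediateField.adjoin_le_iff]
    rintro y ⟨i, rfl⟩
    exact (P.coeff i).2
  have hKfd : FiniteDimensional ℚ K :=
    FiniteDimensional.of_injective (IntermediateField.inclusion hKL).toLinearMap
      (IntermediateField.inclusion hKL).injective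
  obtain ⟨x, hx⟩ := Field.exists_primitive_element ℚ K
  have hxK : IntermediateField.adjoin ℚ {(x : ℂ)} = K := by
    have h1 := IntermediateField.lift_adjoin_simple ℚ K x
    have h2 := IntermediateField.lift_top ℚ K
    exact h1.symm.trans ((congrArg (IntermediateField.lift (F := K)) hx).trans h2)
  obtain ⟨E, hEL, hfd, hgal, hcenE, hxE, hfix⟩ := reduction2 (d := d) L hcen (hKL x.2)
  have hKE : K ≤ E := by
    rw [← hxK, IntermediateField.adjoin_le_iff]
    rintro y rfl
    exact hxE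
  have hαE : IsIntegral E α := hα.tower_top
  -- the polynomial descends
  obtain ⟨Q, hQ⟩ : ∃ Q : E[X], Q.map (algebraMap E ℂ) = P.map (algebraMap L ℂ) := by
    have h1 : P.map (algebraMap L ℂ) ∈ Polynomial.lifts (algebraMap E ℂ) := by
      rw [lifts_iff_coeff_lifts]
      intro n
      rw [coeff_map]
      exact ⟨⟨algebraMap L ℂ (P.coeff n),
        hKE (IntermediateField.subset_adjoin ℚ S ⟨n, rfl⟩)⟩, rfl⟩
    exact (mem_lifts _).1 h1
  have hQm : Q.Monic := by
    apply monic_of_injective (algebraMap E ℂ).injective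
    rw [hQ]
    exact hPm.map _
  have hQα : aeval α Q = 0 := by
    rw [← eval_map_algebraMap, hQ, eval_map_algebraMap]
    exact minpoly.aeval L α
  have hdeg : Q.natDegree = P.natDegree := by
    have h1 := congrArg natDegree hQ
    rwa [hQm.natDegree_map, hPm.natDegree_map] at h1
  have hle : P.natDegree ≤ (minpoly E α).natDegree := by
    let _ : Algebra E L := (IntermediateField.inclusion hEL).toAlgebra
    have _ : IsScalarTower E L ℂ := IsScalarTower.of_algebraMap_eq (fun _ => rfl)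
    have h1 : P ∣ (minpoly E α).map (algebraMap E L) := minpoly.dvd_map_of_isScalarTower E L α
    have h2 := natDegree_le_of_dvd h1 ((minpoly.monic hαE).map _).ne_zero
    rwa [(minpoly.monic hαE).natDegree_map] at h2
  have hmin : minpoly E α = Q := by
    symm
    exact eq_of_monic_of_dvd_of_natDegree_le (minpoly.monic hαE) hQm (minpoly.dvd E α hQα)
      (by rw [hdeg]; exact hle)
  refine ⟨E, hfd, hgal, hcenE, by rw [hmin, hdeg], ?_⟩
  intro z hz hzm
  rw [hmin] at hzm
  apply hfix z hz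
  have key : ∀ y, y ∈ IntermediateField.adjoin ℚ S → ∀ hy : y ∈ E, z ⟨y, hy⟩ = ⟨y, hy⟩ := by
    intro y hyK
    induction hyK using IntermediateField.adjoin_induction with
    | mem y hyS =>
      intro hy
      obtain ⟨i, rfl⟩ := hyS
      have h1 : (⟨algebraMap L ℂ (P.coeff i), hy⟩ : E) = Q.coeff i := by
        apply (algebraMap E ℂ).injective
        have h2 := congrArg (fun R : ℂ[X] => R.coeff i) hQ
        simp only [coeff_map] at h2
        rw [h2]
        rfl
      have h2 := congrArg (fun R : E[X] => R.coeff i) hzm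
      simp only [coeff_map] at h2
      change z ⟨algebraMap L ℂ (P.coeff i), hy⟩ = ⟨algebraMap L ℂ (P.coeff i), hy⟩
      rw [h1]
      exact h2
    | algebraMap y => intro hy; exact z.commutes y
    | add a b ha hb iha ihb =>
      intro hy
      have h1 := iha (hKE ha)
      have h2 := ihb (hKE hb)
      have h3 : (⟨a + b, hy⟩ : E) = ⟨a, hKE ha⟩ + ⟨b, hKE hb⟩ := rfl
      rw [h3, map_add, h1, h2]
    | inv a ha iha =>
      intro hy
      have h1 := iha (hKE ha)
      have h3 : (⟨a⁻¹, hy⟩ : E) = (⟨a, hKE ha⟩)⁻¹ := rfl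
      rw [h3, map_inv₀, h1]
    | mul a b ha hb iha ihb =>
      intro hy
      have h1 := iha (hKE ha)
      have h2 := ihb (hKE hb)
      have h3 : (⟨a * b, hy⟩ : E) = ⟨a, hKE ha⟩ * ⟨b, hKE hb⟩ := rfl
      rw [h3, map_mul, h1, h2]
  exact key x x.2 hxE

/-- the bound for algebraic integers -/
theorem bound_int (d D₀ : ℕ) (hd : 0 < d) (hD₀ : 0 < D₀) : ∃ c : ℝ, 0 < c ∧
    ∀ (L : IntermediateField ℚ ℂ), FiniteDimensional ℚ L → IsGalois ℚ L →
    (∀ σ τ : L ≃ₐ[ℚ] L, σ ^ d * τ = τ * σ ^ d) →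
    ∀ α : ℂ, IsIntegral ℤ α → α ≠ 0 → (∀ k : ℕ, 0 < k → α ^ k ≠ 1) →
    (minpoly L α).natDegree ≤ D₀ →
    c * ((minpoly ℚ α).natDegree : ℝ) ^ ((1 : ℝ) / (d + 1)) ≤
      Real.log ((minpoly ℚ α).map (algebraMap ℚ ℂ)).mahlerMeasure := by
  obtain ⟨K, hK0, hK⟩ := main_SR d D₀ hd hD₀
  obtain ⟨c, hc0, hc⟩ := final_ineq d hK0
  refine ⟨c, hc0, ?_⟩
  intro L hfdL hgalL hcen α hα hα0 hroot hdeg
  obtain ⟨E, hfd, hgal, hcenE, hdegE, hfix⟩ := reduction3 (d := d) L hcen (α := α) hα.tower_top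
  have hnf : NumberField E := { to_charZero := inferInstance, to_finiteDimensional := hfd }
  have h1 := hK E hcenE α hα hα0 hroot (hdegE.le.trans hdeg) (by
    intro z hz hzm
    refine hfix z (fun g => ?_) hzm
    exact ((Subgroup.mem_center_iff.1 hz) g).symm)
  exact hc _ (minpoly.natDegree_pos hα.tower_top) _ (Real.log_nonneg h1.1) h1.2

end Pool.Agent.Q98.SR
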