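import Mathlib
import Pool.Agent.Q98.SR.H

/-!
# Lehmer's problem for algebraic numbers of bounded degree over Galois fields of finite exponent
modulo the centre
-/

set_option autoImplicit false

open Polynomial

namespace Pool.Agent.Q98.SR

lemma one_le_mahler {f : ℤ[X]} (hf : f ≠ 0) :
    1 ≤ (f.map (Int.castRingHom ℂ)).mahlerMeasure := by
  refine le_trans ?_ (leadingCoeff_le_mahlerMeasure _)
  rw [leadingCoeff_map_of_injective (RingHom.injective_int _), eq_intCast, Complex.norm_intCast]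
  exact_mod_cast Int.one_le_abs (leadingCoeff_ne_zero.mpr hf)

lemma int_of_lead {g : ℤ[X]} (hg0 : g ≠ 0) (hg : ¬ 2 ≤ |g.leadingCoeff|) {z : ℂ}
    (hz : aeval z g = 0) : IsIntegral ℤ z := by
  have h1 : g.leadingCoeff = 1 ∨ g.leadingCoeff = -1 := by
    have h2 : |g.leadingCoeff| = 1 := by
      have := Int.one_le_abs (leadingCoeff_ne_zero.mpr hg0)
      omega
    exact (abs_eq (by norm_num)).mp h2
  rcases h1 with h1 | h1
  · exact ⟨g, h1, hz⟩
  · refine ⟨-g, ?_, ?_⟩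
    · rw [Monic, leadingCoeff_neg, h1]
      norm_num
    · rw [eval₂_neg, neg_eq_zero]
      exact hz

lemma map_minpoly {α : ℂ} (hα : IsIntegral ℤ α) :
    (minpoly ℚ α).map (algebraMap ℚ ℂ) = (minpoly ℤ α).map (Int.castRingHom ℂ) := by
  rw [minpoly.isIntegrallyClosed_eq_field_fractions' ℚ hα, Polynomial.map_map]
  congr 1

/-- the measure of a polynomial is at least the measure of the minimal polynomial of a zero -/
lemma mahler_min_le {f : ℤ[X]} (hf : f ≠ 0) {α : ℂ} (hα : IsIntegral ℤ α)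
    (hfα : aeval α f = 0) : ((minpoly ℚ α).map (algebraMap ℚ ℂ)).mahlerMeasure ≤
      (f.map (Int.castRingHom ℂ)).mahlerMeasure := by
  obtain ⟨g, hg⟩ := minpoly.isIntegrallyClosed_dvd hα hfα
  have hg0 : g ≠ 0 := by
    rintro rfl
    rw [mul_zero] at hg
    exact hf hg
  rw [map_minpoly hα]
  conv_rhs => rw [hg, Polynomial.map_mul, mahlerMeasure_mul]
  have h1 := one_le_mahler hg0
  have h2 := mahlerMeasure_nonneg ((minpoly ℤ α).map (Int.castRingHom ℂ))
  nlinarith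

lemma mahler_min_pos {α : ℂ} (hα : IsIntegral ℤ α) :
    0 < ((minpoly ℚ α).map (algebraMap ℚ ℂ)).mahlerMeasure := by
  rw [map_minpoly hα]
  have := one_le_mahler (minpoly.ne_zero hα)
  linarith

theorem lehmer_bdd (d D : ℕ) (hd : 0 < d) (hD : 0 < D) : ∃ c : ℝ, 0 < c ∧
    ∀ (L : IntermediateField ℚ ℂ), FiniteDimensional ℚ L → IsGalois ℚ L →
    (∀ σ τ : L ≃ₐ[ℚ] L, σ ^ d * τ = τ * σ ^ d) →
    ∀ f : ℤ[X], f ≠ 0 → ∀ α : ℂ, α ≠ 0 → (∀ k : ℕ, 0 < k → α ^ k ≠ 1) → aeval α f = 0 →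
    (minpoly L α).natDegree ≤ D →
    (2 ≤ (f.map (Int.castRingHom ℂ)).mahlerMeasure ∨
      c * ((minpoly ℚ α).natDegree : ℝ) ^ ((1 : ℝ) / (d + 1)) ≤
        Real.log (f.map (Int.castRingHom ℂ)).mahlerMeasure) ∧
    (IsIntegral ℤ α → c * ((minpoly ℚ α).natDegree : ℝ) ^ ((1 : ℝ) / (d + 1)) ≤
      Real.log (f.map (Int.castRingHom ℂ)).mahlerMeasure) := by
  obtain ⟨c, hc0, hc⟩ := bound_int d D hd hD
  refine ⟨c, hc0, ?_⟩
  intro L hfd hgal hcen f hf0 α hα0 hrt hα hdeg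
  have hint : IsIntegral ℤ α → c * ((minpoly ℚ α).natDegree : ℝ) ^ ((1 : ℝ) / (d + 1)) ≤
      Real.log (f.map (Int.castRingHom ℂ)).mahlerMeasure := fun hi =>
    (hc L hfd hgal hcen α hi hα0 hrt hdeg).trans
      (Real.log_le_log (mahler_min_pos hi) (mahler_min_le hf0 hi hα))
  refine ⟨?_, hint⟩
  by_cases hl : 2 ≤ |f.leadingCoeff|
  · left
    refine le_trans ?_ (leadingCoeff_le_mahlerMeasure _)
    rw [leadingCoeff_map_of_injective (RingHom.injective_int _), eq_intCast,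
      Complex.norm_intCast]
    exact_mod_cast hl
  · right
    exact hint (int_of_lead hf0 hl hα)

end Pool.Agent.Q98.SR
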