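import Mathlib
import Pool.Agent.Q98.SR.R
import Pool.Agent.TH845.KN.B2

/-!
# The set of the measures of the polynomials of the class is finite below every bound
-/

set_option autoImplicit false

open Polynomial

namespace Pool.Agent.Q98.SR

/-- `α` has degree at most `D` over a finite Galois extension of `ℚ` with central `d`-th powers -/
def Bdd (d D : ℕ) (α : ℂ) : Prop :=
  ∃ L : IntermediateField ℚ ℂ, FiniteDimensional ℚ L ∧ IsGalois ℚ L ∧
    (∀ σ τ : L ≃ₐ[ℚ] L, σ ^ d * τ = τ * σ ^ d) ∧ (minpoly L α).natDegree ≤ D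

/-- the class of monic polynomials -/
def Cls (d D : ℕ) (f : ℤ[X]) : Prop :=
  f.Monic ∧ ∀ α : ℂ, aeval α f = 0 → α ≠ 0 → (∀ k : ℕ, 0 < k → α ^ k ≠ 1) → Bdd d D α

/-- the measures -/
def SS (d D : ℕ) : Set ℝ :=
  {x : ℝ | ∃ f : ℤ[X], Cls d D f ∧ x = (f.map (Int.castRingHom ℂ)).mahlerMeasure}

lemma Cls.of_mul {d D : ℕ} {g q : ℤ[X]} (hg : g.Monic) (h : Cls d D (g * q)) : Cls d D q := by
  refine ⟨hg.of_mul_monic_left h.1, fun α hα => h.2 α ?_⟩
  rw [map_mul, hα, mul_zero]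

lemma Cls.mul {d D : ℕ} {f g : ℤ[X]} (hf : Cls d D f) (hg : Cls d D g) : Cls d D (f * g) := by
  refine ⟨hf.1.mul hg.1, fun α hα h0 h1 => ?_⟩
  rw [map_mul, mul_eq_zero] at hα
  rcases hα with h | h
  · exact hf.2 α h h0 h1
  · exact hg.2 α h h0 h1

lemma exists_root {f : ℤ[X]} (hf : f.Monic) (hd : f.natDegree ≠ 0) : ∃ α : ℂ, aeval α f = 0 := by
  have h1 : (f.map (Int.castRingHom ℂ)).degree ≠ 0 := by
    intro h
    have h2 := natDegree_eq_of_degree_eq_some (n := 0) h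
    rw [hf.natDegree_map] at h2
    exact hd h2
  obtain ⟨α, hα⟩ := IsAlgClosed.exists_root _ h1
  refine ⟨α, ?_⟩
  rw [IsRoot.def, eval_map] at hα
  exact hα

lemma mahler_mul (f g : ℤ[X]) : ((f * g).map (Int.castRingHom ℂ)).mahlerMeasure =
    (f.map (Int.castRingHom ℂ)).mahlerMeasure * (g.map (Int.castRingHom ℂ)).mahlerMeasure := by
  rw [Polynomial.map_mul, mahlerMeasure_mul]

/-- polynomials without trivial zeros -/
def NT (f : ℤ[X]) : Prop := ∀ α : ℂ, aeval α f = 0 → α ≠ 0 ∧ ∀ k : ℕ, 0 < k → α ^ k ≠ 1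

lemma strip (d D : ℕ) : ∀ n : ℕ, ∀ f : ℤ[X], f.natDegree ≤ n → Cls d D f → ∃ h : ℤ[X], Cls d D h ∧
    NT h ∧ (h.map (Int.castRingHom ℂ)).mahlerMeasure = (f.map (Int.castRingHom ℂ)).mahlerMeasure := by
  intro n
  induction n with
  | zero =>
    intro f hn hf
    refine ⟨f, hf, ?_, rfl⟩
    have h1 : f = 1 := eq_one_of_monic_natDegree_zero hf.1 (Nat.le_zero.1 hn)
    intro α hα
    rw [h1, map_one] at hα
    exact absurd hα one_ne_zero
  | succ n ih =>
    intro f hn hf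
    by_cases hnt : NT f
    · exact ⟨f, hf, hnt, rfl⟩
    unfold NT at hnt
    push Not at hnt
    obtain ⟨α, hα, htr⟩ := hnt
    have hi : IsIntegral ℤ α := ⟨f, hf.1, hα⟩
    obtain ⟨q, hq⟩ := minpoly.isIntegrallyClosed_dvd hi hα
    have hgm : (minpoly ℤ α).Monic := minpoly.monic hi
    have hqc : Cls d D q := Cls.of_mul hgm (by rw [← hq]; exact hf)
    have hdeg : f.natDegree = (minpoly ℤ α).natDegree + q.natDegree := by
      rw [hq, hgm.natDegree_mul hqc.1]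
    have hpos : 0 < (minpoly ℤ α).natDegree := minpoly.natDegree_pos hi
    have hone : ((minpoly ℤ α).map (Int.castRingHom ℂ)).mahlerMeasure = 1 := by
      by_cases h0 : α = 0
      · have h1 := mahler_min_le (f := X) X_ne_zero hi (by rw [aeval_X, h0])
        have h2 : (X : ℂ[X]).mahlerMeasure = 1 := by
          have h3 := mahlerMeasure_X_sub_C (0 : ℂ)
          rw [C_0, sub_zero, norm_zero] at h3
          rw [h3, max_eq_left zero_le_one]
        rw [map_minpoly hi, Polynomial.map_X, h2] at h1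
        exact le_antisymm h1 (one_le_mahler (minpoly.ne_zero hi))
      · obtain ⟨k, hk, hk1⟩ := htr h0
        have hfin : IsOfFinOrder α := isOfFinOrder_iff_pow_eq_one.2 ⟨k, hk, hk1⟩
        have hprim : IsPrimitiveRoot α (orderOf α) := IsPrimitiveRoot.orderOf α
        have hpo : 0 < orderOf α := hfin.orderOf_pos
        rw [← cyclotomic_eq_minpoly hprim hpo, map_cyclotomic]
        have := cyclotomic_mahlerMeasure_eq_one (R := ℂ) (orderOf α)
        rwa [Algebra.algebraMap_self, Polynomial.map_id] at this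
    obtain ⟨h, hh1, hh2, hh3⟩ := ih q (by omega) hqc
    refine ⟨h, hh1, hh2, ?_⟩
    rw [hh3, hq, mahler_mul, hone, one_mul]

lemma degree_bound (d D : ℕ) (hd : 0 < d) (hD : 0 < D) : ∃ C : ℝ, 0 < C ∧ ∀ n : ℕ, ∀ f : ℤ[X],
    f.natDegree ≤ n → Cls d D f → NT f →
    (f.natDegree : ℝ) ≤ (C * Real.log (f.map (Int.castRingHom ℂ)).mahlerMeasure) ^ (d + 1) := by
  obtain ⟨c, hc0, hc⟩ := lehmer_bdd d D hd hD
  refine ⟨1 / c, by positivity, ?_⟩
  intro n
  induction n with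
  | zero =>
    intro f hn hf hnt
    have h1 : f = 1 := eq_one_of_monic_natDegree_zero hf.1 (Nat.le_zero.1 hn)
    rw [h1]
    simp
  | succ n ih =>
    intro f hn hf hnt
    by_cases h0 : f.natDegree = 0
    · exact ih f (by omega) hf hnt
    obtain ⟨α, hα⟩ := exists_root hf.1 h0
    have hi : IsIntegral ℤ α := ⟨f, hf.1, hα⟩
    obtain ⟨q, hq⟩ := minpoly.isIntegrallyClosed_dvd hi hα
    have hgm : (minpoly ℤ α).Monic := minpoly.monic hi
    have hqc : Cls d D q := Cls.of_mul hgm (by rw [← hq]; exact hf)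
    have hqn : NT q := fun β hβ => hnt β (by rw [hq, map_mul, hβ, mul_zero])
    have hdeg : f.natDegree = (minpoly ℤ α).natDegree + q.natDegree := by
      rw [hq, hgm.natDegree_mul hqc.1]
    have hpos : 0 < (minpoly ℤ α).natDegree := minpoly.natDegree_pos hi
    have h1 := ih q (by omega) hqc hqn
    obtain ⟨L, hfd, hgal, hcen, hL⟩ := hf.2 α hα (hnt α hα).1 (hnt α hα).2
    have h2 := (hc L hfd hgal hcen (minpoly ℤ α) (minpoly.ne_zero hi) α (hnt α hα).1
      (hnt α hα).2 (minpoly.aeval ℤ α) hL).2 hi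
    have hnat : (minpoly ℚ α).natDegree = (minpoly ℤ α).natDegree := by
      rw [minpoly.isIntegrallyClosed_eq_field_fractions' ℚ hi, hgm.natDegree_map]
    rw [hnat] at h2
    set m := (minpoly ℤ α).natDegree with hm
    set a := Real.log ((minpoly ℤ α).map (Int.castRingHom ℂ)).mahlerMeasure with ha
    set b := Real.log (q.map (Int.castRingHom ℂ)).mahlerMeasure with hb
    have ha0 : 0 ≤ a := Real.log_nonneg (one_le_mahler (minpoly.ne_zero hi))
    have hb0 : 0 ≤ b := Real.log_nonneg (one_le_mahler hqc.1.ne_zero)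
    have h3 : Real.log (f.map (Int.castRingHom ℂ)).mahlerMeasure = a + b := by
      rw [hq, mahler_mul, Real.log_mul]
      · have := one_le_mahler (minpoly.ne_zero hi)
        linarith
      · have := one_le_mahler hqc.1.ne_zero
        linarith
    have h4 : (m : ℝ) ≤ (1 / c * a) ^ (d + 1) := by
      have h5 : (m : ℝ) ^ ((1 : ℝ) / (d + 1)) ≤ 1 / c * a := by
        rw [div_mul_eq_mul_div, one_mul, le_div_iff₀ hc0]
        linarith
      have h6 : ((m : ℝ) ^ ((1 : ℝ) / (d + 1))) ^ (d + 1) = m := by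
        rw [← Real.rpow_natCast, ← Real.rpow_mul (Nat.cast_nonneg _)]
        push_cast
        rw [one_div, inv_mul_cancel₀ (by positivity), Real.rpow_one]
      rw [← h6]
      exact pow_le_pow_left₀ (by positivity) h5 _
    rw [h3, hdeg, mul_add]
    push_cast
    refine le_trans (add_le_add h4 h1) ?_
    exact pow_add_pow_le (by positivity) (by positivity) (by omega)

/-- finiteness below every bound -/
theorem SS_finite (d D : ℕ) (hd : 0 < d) (hD : 0 < D) (B : ℝ) : (SS d D ∩ Set.Iic B).Finite := by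
  obtain ⟨C, hC0, hC⟩ := degree_bound d D hd hD
  by_cases hB : B < 1
  · convert Set.finite_empty
    rw [Set.eq_empty_iff_forall_notMem]
    rintro x ⟨⟨f, hf, rfl⟩, hx⟩
    have := one_le_mahler hf.1.ne_zero
    rw [Set.mem_Iic] at hx
    linarith
  push Not at hB
  obtain ⟨N, hN⟩ := exists_nat_ge ((C * Real.log B) ^ (d + 1))
  have hfin := finite_mahlerMeasure_le N ⟨B, by linarith⟩
  refine (hfin.image fun p : ℤ[X] => (p.map (Int.castRingHom ℂ)).mahlerMeasure).subset ?_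
  rintro x ⟨⟨f, hf, rfl⟩, hx⟩
  rw [Set.mem_Iic] at hx
  obtain ⟨h, hh1, hh2, hh3⟩ := strip d D _ f le_rfl hf
  refine ⟨h, ⟨?_, ?_⟩, hh3⟩
  · have h1 := hC _ h le_rfl hh1 hh2
    have h2 : 0 ≤ Real.log (h.map (Int.castRingHom ℂ)).mahlerMeasure :=
      Real.log_nonneg (one_le_mahler hh1.1.ne_zero)
    have h3 : Real.log (h.map (Int.castRingHom ℂ)).mahlerMeasure ≤ Real.log B := by
      apply Real.log_le_log
      · have := one_le_mahler hh1.1.ne_zero
        linarith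
      · rw [hh3]
        exact hx
    have h4 : ((h.natDegree : ℕ) : ℝ) ≤ N := by
      refine (h1.trans ?_).trans hN
      apply pow_le_pow_left₀ (by positivity)
      exact mul_le_mul_of_nonneg_left h3 hC0.le
    exact_mod_cast h4
  · change (h.map (Int.castRingHom ℂ)).mahlerMeasure ≤ B
    rw [hh3]
    exact hx

theorem SS_one (d D : ℕ) : (1 : ℝ) ∈ SS d D := by
  refine ⟨1, ⟨monic_one, fun α hα => ?_⟩, ?_⟩
  · rw [map_one] at hα
    exact absurd hα one_ne_zero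
  · rw [Polynomial.map_one, mahlerMeasure_one]

theorem SS_mul (d D : ℕ) {x y : ℝ} (hx : x ∈ SS d D) (hy : y ∈ SS d D) : x * y ∈ SS d D := by
  obtain ⟨f, hf, rfl⟩ := hx
  obtain ⟨g, hg, rfl⟩ := hy
  exact ⟨f * g, hf.mul hg, (mahler_mul f g).symm⟩

theorem SS_ge (d D : ℕ) {x : ℝ} (hx : x ∈ SS d D) : 1 ≤ x := by
  obtain ⟨f, hf, rfl⟩ := hx
  exact one_le_mahler hf.1.ne_zero

theorem SS_BC (d D : ℕ) (hd : 0 < d) (hD : 0 < D) : Pool.Agent.TH845.KN.BC (SS d D) := by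
  intro B
  have hfin := SS_finite d D hd hD B
  have h1 : ∀ x ∈ SS d D ∩ Set.Iic B, ∃ K : ℝ, x ∈ Pool.Agent.H261R2.CM.LL K := by
    rintro x ⟨⟨f, hf, rfl⟩, -⟩
    exact ⟨_, Pool.Agent.W242.IM.m1_mem_LL f 1 hf.1.ne_zero one_ne_zero isRelPrime_one_right _
      le_rfl⟩
  choose! K hK using h1
  obtain ⟨K0, hK0⟩ := (hfin.image K).bddAbove
  refine ⟨K0, ?_⟩
  rintro x ⟨hx, hxB⟩
  have hx' : x ∈ SS d D ∩ Set.Iic B := ⟨hx, Set.mem_Iic.2 (le_of_lt hxB)⟩
  exact Pool.Agent.H261R2.CM.LL_mono (hK0 ⟨x, hx', rfl⟩) (hK x hx')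

/-- products with closed sets are closed -/
theorem closed_prod {S T : Set ℝ} (hS : ∀ B : ℝ, (S ∩ Set.Iic B).Finite) (hS1 : ∀ x ∈ S, 1 ≤ x)
    (hT : IsClosed T) (hT1 : ∀ x ∈ T, 1 ≤ x) :
    IsClosed {z : ℝ | ∃ s ∈ S, ∃ t ∈ T, z = s * t} := by
  refine isClosed_of_closure_subset fun x hx => ?_
  have hclosed : IsClosed (⋃ s ∈ S ∩ Set.Iic (x + 1), (fun t : ℝ => s * t) '' T) := by
    refine (hS (x + 1)).isClosed_biUnion fun s hs => ?_
    have hs0 : s ≠ 0 := by
      have := hS1 s hs.1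
      linarith
    exact (Homeomorph.mulLeft₀ s hs0).isClosedMap T hT
  have h1 : x ∈ closure ({z : ℝ | ∃ s ∈ S, ∃ t ∈ T, z = s * t} ∩ Set.Iio (x + 1)) := by
    rw [mem_closure_iff_nhds] at hx ⊢
    intro t ht
    obtain ⟨y, hy1, hy2⟩ := hx (t ∩ Set.Iio (x + 1))
      (Filter.inter_mem ht (Iio_mem_nhds (by linarith)))
    exact ⟨y, hy1.1, hy2, hy1.2⟩
  have h2 : {z : ℝ | ∃ s ∈ S, ∃ t ∈ T, z = s * t} ∩ Set.Iio (x + 1) ⊆
      ⋃ s ∈ S ∩ Set.Iic (x + 1), (fun t : ℝ => s * t) '' T := by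
    rintro z ⟨⟨s, hs, t, ht, rfl⟩, hz⟩
    rw [Set.mem_Iio] at hz
    rw [Set.mem_iUnion₂]
    refine ⟨s, ⟨hs, ?_⟩, t, ht, rfl⟩
    rw [Set.mem_Iic]
    have h3 := hS1 s hs
    have h4 := hT1 t ht
    nlinarith
  have h3 := closure_minimal h2 hclosed h1
  rw [Set.mem_iUnion₂] at h3
  obtain ⟨s, hs, t, ht, h4⟩ := h3
  exact ⟨s, hs.1, t, ht, h4.symm⟩

end Pool.Agent.Q98.SR
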