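import Mathlib
import Pool.Agent.Q98.SR.S
import Pool.Agent.W738.SAL.E

/-!
# Perron numbers with infinitely many Parry powers, of bounded degree over Galois fields
-/

set_option autoImplicit false

open Polynomial

namespace Pool.Agent.Q98.SR

open Pool.Agent.W738.SAL

lemma minZ_ofReal {β : ℝ} (hi : IsIntegral ℤ β) : minpoly ℤ (β : ℂ) = minpoly ℤ β := by
  have h1 : Function.Injective (algebraMap ℝ ℂ) := (algebraMap ℝ ℂ).injective
  have := minpoly.algebraMap_eq (A := ℤ) h1 β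
  simpa using this

/-- the measure of a Perron number whose other conjugates are in the unit disc -/
lemma mahler_perron {β : ℝ} (hP : IsPerron β) (hinf : ¬ (ParryPowers β).Finite) :
    ((minpoly ℤ (β : ℂ)).map (Int.castRingHom ℂ)).mahlerMeasure = β := by
  have hi := hP.2.1
  have hiC : IsIntegral ℤ (β : ℂ) := hi.map (Complex.ofRealHom.toIntAlgHom)
  have hm : (minpoly ℤ (β : ℂ)).Monic := minpoly.monic hiC
  set p := (minpoly ℤ (β : ℂ)).map (Int.castRingHom ℂ) with hp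
  have hpm : p.Monic := hm.map _
  have hpq : p = (minpoly ℚ (β : ℂ)).map (algebraMap ℚ ℂ) := (map_minpoly hiC).symm
  have hsep : p.Separable := by
    rw [hpq]
    exact ((minpoly.irreducible (hiC.tower_top (A := ℚ))).separable).map
  have hnd : p.roots.Nodup := nodup_roots hsep
  have hβ : (β : ℂ) ∈ p.roots := by
    rw [mem_roots hpm.ne_zero, IsRoot.def, hp, eval_map]
    exact minpoly.aeval ℤ (β : ℂ)
  obtain ⟨t, ht⟩ := Multiset.exists_cons_of_mem hβ
  rw [mahlerMeasure_eq_leadingCoeff_mul_prod_roots, hpm.leadingCoeff, norm_one, one_mul, ht,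
    Multiset.map_cons, Multiset.prod_cons]
  have h1 : (t.map (fun a => max 1 ‖a‖)).prod = 1 := by
    apply Multiset.prod_eq_one
    intro x hx
    obtain ⟨z, hz, rfl⟩ := Multiset.mem_map.1 hx
    have hzr : z ∈ p.roots := by
      rw [ht]
      exact Multiset.mem_cons_of_mem hz
    have hne : z ≠ (β : ℂ) := by
      rintro rfl
      rw [ht, Multiset.nodup_cons] at hnd
      exact hnd.1 hz
    rw [mem_roots hpm.ne_zero, IsRoot.def, hp, eval_map] at hzr
    have h2 : aeval z (minpoly ℤ β) = 0 := by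
      rw [← minZ_ofReal hi]
      exact hzr
    exact max_eq_left (one_of_inf hP hinf h2 hne)
  rw [h1, mul_one, Complex.norm_real, Real.norm_eq_abs, abs_of_pos (by linarith [hP.1])]
  exact max_eq_right hP.1.le

/-- the bound -/
theorem perron_bound (d D : ℕ) (hd : 0 < d) (hD : 0 < D) : ∃ c : ℝ, 0 < c ∧
    ∀ β : ℝ, IsPerron β → Bdd d D (β : ℂ) → ¬ (ParryPowers β).Finite →
      c * ((minpoly ℤ (β : ℂ)).natDegree : ℝ) ^ ((1 : ℝ) / (d + 1)) ≤ Real.log β := by
  obtain ⟨c, hc0, hc⟩ := lehmer_bdd d D hd hD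
  refine ⟨c, hc0, fun β hP hB hinf => ?_⟩
  obtain ⟨L, hfd, hgal, hcen, hL⟩ := hB
  have hi := hP.2.1
  have hiC : IsIntegral ℤ (β : ℂ) := hi.map (Complex.ofRealHom.toIntAlgHom)
  have hβ1 := hP.1
  have h0 : (β : ℂ) ≠ 0 := by
    rw [Ne, Complex.ofReal_eq_zero]
    linarith
  have hrt : ∀ k : ℕ, 0 < k → (β : ℂ) ^ k ≠ 1 := by
    intro k hk h
    have h1 : β ^ k = 1 := by exact_mod_cast h
    have h2 := one_lt_pow₀ hβ1 hk.ne'
    linarith
  have h1 := (hc L hfd hgal hcen (minpoly ℤ (β : ℂ)) (minpoly.ne_zero hiC) _ h0 hrt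
    (minpoly.aeval ℤ _) hL).2 hiC
  rw [mahler_perron hP hinf] at h1
  have hnat : (minpoly ℚ (β : ℂ)).natDegree = (minpoly ℤ (β : ℂ)).natDegree := by
    rw [minpoly.isIntegrallyClosed_eq_field_fractions' ℚ hiC, (minpoly.monic hiC).natDegree_map]
  rwa [hnat] at h1

/-- finiteness -/
theorem perron_finite (d D : ℕ) (hd : 0 < d) (hD : 0 < D) (B : ℝ) :
    {β : ℝ | IsPerron β ∧ β ≤ B ∧ Bdd d D (β : ℂ) ∧ ¬ (ParryPowers β).Finite}.Finite := by
  obtain ⟨c, hc0, hc⟩ := perron_bound d D hd hD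
  by_cases hB : B < 1
  · convert Set.finite_empty
    rw [Set.eq_empty_iff_forall_notMem]
    rintro β ⟨hP, hβ, -, -⟩
    linarith [hP.1]
  push Not at hB
  obtain ⟨N, hN⟩ := exists_nat_ge ((1 / c * Real.log B) ^ (d + 1))
  have hfin := finite_mahlerMeasure_le N ⟨B, by linarith⟩
  have hfin2 : (⋃ p ∈ {p : ℤ[X] | p.natDegree ≤ N ∧
      (p.map (Int.castRingHom ℂ)).mahlerMeasure ≤ ((⟨B, by linarith⟩ : NNReal) : ℝ)},
      {β : ℝ | p ≠ 0 ∧ aeval (β : ℂ) p = 0}).Finite := by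
    refine hfin.biUnion fun p _ => ?_
    by_cases hp : p = 0
    · convert Set.finite_empty
      rw [Set.eq_empty_iff_forall_notMem]
      rintro β ⟨h, -⟩
      exact h hp
    have h1 : (p.rootSet ℂ).Finite := rootSet_finite _ _
    refine (h1.preimage (f := fun β : ℝ => (β : ℂ))
      (Complex.ofReal_injective.injOn)).subset ?_
    rintro β ⟨h2, h3⟩
    rw [Set.mem_preimage, mem_rootSet]
    exact ⟨h2, h3⟩
  refine hfin2.subset ?_
  rintro β ⟨hP, hβ, hBd, hinf⟩
  have hiC : IsIntegral ℤ (β : ℂ) := hP.2.1.map (Complex.ofRealHom.toIntAlgHom)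
  rw [Set.mem_iUnion₂]
  refine ⟨minpoly ℤ (β : ℂ), ⟨?_, ?_⟩, minpoly.ne_zero hiC, minpoly.aeval ℤ _⟩
  · have h1 := hc β hP hBd hinf
    have h2 : Real.log β ≤ Real.log B := Real.log_le_log (by linarith [hP.1]) hβ
    set m := (minpoly ℤ (β : ℂ)).natDegree with hm
    have h5 : (m : ℝ) ^ ((1 : ℝ) / (d + 1)) ≤ 1 / c * Real.log B := by
      rw [div_mul_eq_mul_div, one_mul, le_div_iff₀ hc0]
      linarith
    have h6 : ((m : ℝ) ^ ((1 : ℝ) / (d + 1))) ^ (d + 1) = m := by
      rw [← Real.rpow_natCast, ← Real.rpow_mul (Nat.cast_nonneg _)]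
      push_cast
      rw [one_div, inv_mul_cancel₀ (by positivity), Real.rpow_one]
    have h7 : (m : ℝ) ≤ N := by
      rw [← h6]
      exact (pow_le_pow_left₀ (by positivity) h5 _).trans hN
    exact_mod_cast h7
  · rw [mahler_perron hP hinf]
    exact hβ

end Pool.Agent.Q98.SR
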